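import Mathlib

set_option autoImplicit false

namespace Pool.Agent.LeadR3.Bisym

open Set Filter Topology

structure Good (I : Set ℝ) (F : ℝ → ℝ → ℝ) : Prop where
  ord : I.OrdConnected
  mem : ∀ x ∈ I, ∀ y ∈ I, F x y ∈ I
  refl : ∀ x ∈ I, F x x = x
  bis : ∀ x ∈ I, ∀ y ∈ I, ∀ u ∈ I, ∀ v ∈ I, F (F x y) (F u v) = F (F x u) (F y v)
  right : ∀ x ∈ I, StrictMonoOn (F x) I
  left : ∀ y ∈ I, StrictMonoOn (fun x => F x y) I

namespace Good

variable {I : Set ℝ} {F : ℝ → ℝ → ℝ}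

lemma swap (h : Good I F) : Good I (fun x y => F y x) where
  ord := h.ord
  mem := fun x hx y hy => h.mem y hy x hx
  refl := h.refl
  bis := fun x hx y hy u hu v hv => by
    have := h.bis v hv u hu y hy x hx
    simpa using this
  right := h.left
  left := h.right

lemma reflect (h : Good I F) : Good (Neg.neg ⁻¹' I) (fun x y => - F (-x) (-y)) where
  ord := by
    constructor
    intro x hx y hy z hz
    have := h.ord.out hy hx
    exact this ⟨neg_le_neg hz.2, neg_le_neg hz.1⟩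
  mem := fun x hx y hy => by
    simp only [mem_preimage, neg_neg] at *
    exact h.mem _ hx _ hy
  refl := fun x hx => by
    have := h.refl (-x) hx
    simp [this]
  bis := fun x hx y hy u hu v hv => by
    have := h.bis (-x) hx (-y) hy (-u) hu (-v) hv
    simp only [neg_neg]
    rw [this]
  right := fun x hx y hy z hz hyz => by
    have := h.right (-x) hx (a := -z) hz (b := -y) hy (neg_lt_neg hyz)
    simpa using this
  left := fun y hy x hx z hz hxz => by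
    have := h.left (-y) hy (a := -z) hz (b := -x) hx (neg_lt_neg hxz)
    simpa using this

lemma mono (h : Good I F) {x x' y y' : ℝ} (hx : x ∈ I) (hx' : x' ∈ I) (hy : y ∈ I) (hy' : y' ∈ I)
    (hxx : x ≤ x') (hyy : y ≤ y') : F x y ≤ F x' y' :=
  ((h.left y hy).monotoneOn hx hx' hxx).trans ((h.right x' hx').monotoneOn hy hy' hyy)

/-- comparison of differences: `q - p` is at least a left difference at `x0` -/
def R (I : Set ℝ) (F : ℝ → ℝ → ℝ) (x0 p q : ℝ) : Prop :=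
  p ∈ I ∧ q ∈ I ∧ p ≤ q ∧ ∃ x ∈ I, x < x0 ∧ F x0 p ≤ F x q

lemma R_left (h : Good I F) {x0 p q a : ℝ} (hx0 : x0 ∈ I) (ha : a ∈ I) (hR : R I F x0 p q) :
    R I F x0 (F p a) (F q a) := by
  obtain ⟨hp, hq, hpq, x, hx, hxx, hle⟩ := hR
  refine ⟨h.mem _ hp _ ha, h.mem _ hq _ ha, h.mono hp hq ha ha hpq le_rfl,
    F x x0, h.mem _ hx _ hx0, ?_, ?_⟩
  · calc F x x0 < F x0 x0 := h.left x0 hx0 hx hx0 hxx
      _ = x0 := h.refl x0 hx0
  · calc F x0 (F p a) = F (F x0 x0) (F p a) := by rw [h.refl x0 hx0]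
      _ = F (F x0 p) (F x0 a) := h.bis _ hx0 _ hx0 _ hp _ ha
      _ ≤ F (F x q) (F x0 a) :=
        h.mono (h.mem _ hx0 _ hp) (h.mem _ hx _ hq) (h.mem _ hx0 _ ha) (h.mem _ hx0 _ ha) hle le_rfl
      _ = F (F x x0) (F q a) := h.bis _ hx _ hq _ hx0 _ ha

lemma R_right (h : Good I F) {x0 p q a : ℝ} (hx0 : x0 ∈ I) (ha : a ∈ I) (hR : R I F x0 p q) :
    R I F x0 (F a p) (F a q) := by
  obtain ⟨hp, hq, hpq, x, hx, hxx, hle⟩ := hR
  refine ⟨h.mem _ ha _ hp, h.mem _ ha _ hq, h.mono ha ha hp hq le_rfl hpq,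
    F x0 x, h.mem _ hx0 _ hx, ?_, ?_⟩
  · calc F x0 x < F x0 x0 := h.right x0 hx0 hx hx0 hxx
      _ = x0 := h.refl x0 hx0
  · calc F x0 (F a p) = F (F x0 x0) (F a p) := by rw [h.refl x0 hx0]
      _ = F (F x0 a) (F x0 p) := h.bis _ hx0 _ hx0 _ ha _ hp
      _ ≤ F (F x0 a) (F x q) :=
        h.mono (h.mem _ hx0 _ ha) (h.mem _ hx0 _ ha) (h.mem _ hx0 _ hp) (h.mem _ hx _ hq) le_rfl hle
      _ = F (F x0 x) (F a q) := h.bis _ hx0 _ ha _ hx _ hq

/-- the two contractions -/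
noncomputable def g (F : ℝ → ℝ → ℝ) (x0 x1 : ℝ) (b : Bool) (y : ℝ) : ℝ :=
  if b then F x0 y else F (F y x1) x1

noncomputable def w (F : ℝ → ℝ → ℝ) (x0 x1 : ℝ) (σ : ℕ → Bool) : ℕ → ℝ → ℝ
  | 0 => fun y => y
  | n + 1 => fun y => w F x0 x1 σ n (g F x0 x1 (σ n) y)

lemma w_congr (x0 x1 : ℝ) (σ τ : ℕ → Bool) (n : ℕ) (h : ∀ m < n, σ m = τ m) :
    w F x0 x1 σ n = w F x0 x1 τ n := by
  induction n with
  | zero => rfl
  | succ n ih =>
    funext y
    simp only [w]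
    rw [ih (fun m hm => h m (by omega)), h n (by omega)]

lemma g_mem (h : Good I F) {x0 x1 : ℝ} (hx0 : x0 ∈ I) (hx1 : x1 ∈ I) (h10 : x1 < x0) (b : Bool)
    {y : ℝ} (hy : y ∈ Icc x1 x0) : g F x0 x1 b y ∈ Icc x1 x0 := by
  have hyI : y ∈ I := h.ord.out hx1 hx0 hy
  unfold g
  split_ifs
  · constructor
    · calc x1 = F x1 x1 := (h.refl x1 hx1).symm
        _ ≤ F x0 y := h.mono hx1 hx0 hx1 hyI h10.le hy.1
    · calc F x0 y ≤ F x0 x0 := h.mono hx0 hx0 hyI hx0 le_rfl hy.2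
        _ = x0 := h.refl x0 hx0
  · have h1 : x1 ≤ F y x1 := by
      calc x1 = F x1 x1 := (h.refl x1 hx1).symm
        _ ≤ F y x1 := h.mono hx1 hyI hx1 hx1 hy.1 le_rfl
    have h2 : F y x1 ≤ x0 := by
      calc F y x1 ≤ F x0 x0 := h.mono hyI hx0 hx1 hx0 hy.2 h10.le
        _ = x0 := h.refl x0 hx0
    have h3 : F y x1 ∈ I := h.mem _ hyI _ hx1
    constructor
    · calc x1 = F x1 x1 := (h.refl x1 hx1).symm
        _ ≤ F (F y x1) x1 := h.mono hx1 h3 hx1 hx1 h1 le_rfl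
    · calc F (F y x1) x1 ≤ F x0 x0 := h.mono h3 hx0 hx1 hx0 h2 h10.le
        _ = x0 := h.refl x0 hx0

lemma g_mono (h : Good I F) {x0 x1 : ℝ} (hx0 : x0 ∈ I) (hx1 : x1 ∈ I) (b : Bool)
    {y y' : ℝ} (hy : y ∈ I) (hy' : y' ∈ I) (hyy : y ≤ y') :
    g F x0 x1 b y ≤ g F x0 x1 b y' := by
  unfold g
  split_ifs
  · exact h.mono hx0 hx0 hy hy' le_rfl hyy
  · exact h.mono (h.mem _ hy _ hx1) (h.mem _ hy' _ hx1) hx1 hx1
      (h.mono hy hy' hx1 hx1 hyy le_rfl) le_rfl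

lemma w_mono (h : Good I F) {x0 x1 : ℝ} (hx0 : x0 ∈ I) (hx1 : x1 ∈ I) (h10 : x1 < x0)
    (σ : ℕ → Bool) (n : ℕ) : ∀ {y y' : ℝ}, y ∈ Icc x1 x0 → y' ∈ Icc x1 x0 → y ≤ y' →
    w F x0 x1 σ n y ≤ w F x0 x1 σ n y' := by
  induction n with
  | zero => intro y y' _ _ hyy; exact hyy
  | succ n ih =>
    intro y y' hy hy' hyy
    exact ih (h.g_mem hx0 hx1 h10 _ hy) (h.g_mem hx0 hx1 h10 _ hy')
      (h.g_mono hx0 hx1 _ (h.ord.out hx1 hx0 hy) (h.ord.out hx1 hx0 hy') hyy)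

lemma w_mem (h : Good I F) {x0 x1 : ℝ} (hx0 : x0 ∈ I) (hx1 : x1 ∈ I) (h10 : x1 < x0)
    (σ : ℕ → Bool) (n : ℕ) : ∀ {y : ℝ}, y ∈ Icc x1 x0 → w F x0 x1 σ n y ∈ Icc x1 x0 := by
  induction n with
  | zero => intro y hy; exact hy
  | succ n ih => intro y hy; exact ih (h.g_mem hx0 hx1 h10 _ hy)

lemma w_R (h : Good I F) {x0 x1 : ℝ} (hx0 : x0 ∈ I) (hx1 : x1 ∈ I)
    (σ : ℕ → Bool) (n : ℕ) : ∀ {p q : ℝ}, R I F x0 p q →
    R I F x0 (w F x0 x1 σ n p) (w F x0 x1 σ n q) := by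
  induction n with
  | zero => intro p q hR; exact hR
  | succ n ih =>
    intro p q hR
    apply ih
    unfold g
    split_ifs
    · exact h.R_right hx0 hx0 hR
    · exact h.R_left hx0 hx1 (h.R_left hx0 hx1 hR)

/-- There is no jump from the left in the first variable. -/
theorem no_jump (h : Good I F) {x0 x1 c z : ℝ} (hx0 : x0 ∈ I) (hx1 : x1 ∈ I) (h10 : x1 < x0)
    (hc : c ∈ I) (hz : z ∈ I) (hzB : z < F x0 c) : ∃ x ∈ I, x < x0 ∧ z < F x c := by
  by_contra hno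
  push Not at hno
  set B : ℝ := F x0 c with hB
  have hBI : B ∈ I := h.mem _ hx0 _ hc
  have key : ∀ {p q : ℝ}, R I F x0 p q → F B p ≤ F z q := by
    rintro p q ⟨hp, hq, hpq, x, hx, hxx, hle⟩
    have hcp := h.mem _ hc _ hp
    have hxc := h.mem _ hx _ hc
    calc F B p = F (F x0 c) (F p p) := by rw [h.refl p hp]
      _ = F (F x0 p) (F c p) := h.bis _ hx0 _ hc _ hp _ hp
      _ ≤ F (F x q) (F c p) := h.mono (h.mem _ hx0 _ hp) (h.mem _ hx _ hq) hcp hcp hle le_rfl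
      _ = F (F x c) (F q p) := h.bis _ hx _ hq _ hc _ hp
      _ ≤ F z (F q q) := h.mono hxc hz (h.mem _ hq _ hp) (h.mem _ hq _ hq) (hno x hx hxx)
          (h.mono hq hq hp hq le_rfl hpq)
      _ = F z q := by rw [h.refl q hq]
  set m : ℝ := F x0 x1 with hm
  have hmI : m ∈ I := h.mem _ hx0 _ hx1
  have hm0 : m < x0 := by
    calc m < F x0 x0 := h.right x0 hx0 hx1 hx0 h10
      _ = x0 := h.refl x0 hx0
  have hm1 : x1 < m := by
    calc x1 = F x1 x1 := (h.refl x1 hx1).symm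
      _ < F x0 x1 := h.left x1 hx1 hx1 hx0 h10
  have hbase : R I F x0 (F m x1) m := by
    refine ⟨h.mem _ hmI _ hx1, hmI, ?_, F x0 m, h.mem _ hx0 _ hmI, ?_, ?_⟩
    · calc F m x1 ≤ F m m := h.mono hmI hmI hx1 hmI le_rfl hm1.le
        _ = m := h.refl m hmI
    · calc F x0 m < F x0 x0 := h.right x0 hx0 hmI hx0 hm0
        _ = x0 := h.refl x0 hx0
    · apply le_of_eq
      calc F x0 (F m x1) = F (F x0 x0) (F m x1) := by rw [h.refl x0 hx0]
        _ = F (F x0 m) (F x0 x1) := h.bis _ hx0 _ hx0 _ hmI _ hx1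
  -- the limit points
  have hx1m : x1 ∈ Icc x1 x0 := ⟨le_rfl, h10.le⟩
  have hx0m : x0 ∈ Icc x1 x0 := ⟨h10.le, le_rfl⟩
  set W := fun (σ : ℕ → Bool) (n : ℕ) => w F x0 x1 σ n with hW
  have hLmono : ∀ σ : ℕ → Bool, Monotone fun n => W σ n x1 := by
    intro σ
    apply monotone_nat_of_le_succ
    intro n
    exact h.w_mono hx0 hx1 h10 σ n hx1m (h.g_mem hx0 hx1 h10 _ hx1m)
      (h.g_mem hx0 hx1 h10 _ hx1m).1
  have hRanti : ∀ σ : ℕ → Bool, Antitone fun n => W σ n x0 := by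
    intro σ
    apply antitone_nat_of_succ_le
    intro n
    exact h.w_mono hx0 hx1 h10 σ n (h.g_mem hx0 hx1 h10 _ hx0m) hx0m
      (h.g_mem hx0 hx1 h10 _ hx0m).2
  have hLR : ∀ (σ : ℕ → Bool) (n k : ℕ), W σ n x1 ≤ W σ k x0 := by
    intro σ n k
    calc W σ n x1 ≤ W σ (max n k) x1 := hLmono σ (le_max_left _ _)
      _ ≤ W σ (max n k) x0 := h.w_mono hx0 hx1 h10 σ _ hx1m hx0m h10.le
      _ ≤ W σ k x0 := hRanti σ (le_max_right _ _)
  set e : (ℕ → Bool) → ℝ := fun σ => ⨆ n, W σ n x1 with he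
  have hbdd : ∀ σ : ℕ → Bool, BddAbove (range fun n => W σ n x1) := by
    intro σ
    refine ⟨x0, ?_⟩
    rintro _ ⟨n, rfl⟩
    exact (h.w_mem hx0 hx1 h10 σ n hx1m).2
  have heL : ∀ (σ : ℕ → Bool) (n : ℕ), W σ n x1 ≤ e σ := fun σ n => le_ciSup (hbdd σ) n
  have heR : ∀ (σ : ℕ → Bool) (n : ℕ), e σ ≤ W σ n x0 := fun σ n => ciSup_le fun k => hLR σ k n
  have heI : ∀ σ : ℕ → Bool, e σ ∈ I := by
    intro σ
    apply h.ord.out hx1 hx0
    exact ⟨heL σ 0, heR σ 0⟩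
  have hsep : ∀ (σ τ : ℕ → Bool) (n : ℕ), (∀ k < n, σ k = τ k) → σ n = false → τ n = true →
      F B (e σ) ≤ F z (e τ) := by
    intro σ τ n hk hσ hτ
    have e1 : e σ ≤ W σ n (F m x1) := by
      have := heR σ (n + 1)
      simp only [hW, w, g, hσ] at this
      simpa [hW] using this
    have e2 : W σ n m ≤ e τ := by
      have := heL τ (n + 1)
      simp only [hW, w, g, hτ] at this
      rw [hW]
      simp only
      rw [w_congr x0 x1 σ τ n hk]
      simpa using this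
    have hR : R I F x0 (W σ n (F m x1)) (W σ n m) := h.w_R hx0 hx1 σ n hbase
    calc F B (e σ) ≤ F B (W σ n (F m x1)) := h.mono hBI hBI (heI σ) hR.1 le_rfl e1
      _ ≤ F z (W σ n m) := key hR
      _ ≤ F z (e τ) := h.mono hz hz hR.2.1 (heI τ) le_rfl e2
  have hdisj : (univ : Set (ℕ → Bool)).PairwiseDisjoint
      (fun σ => Ioo (F z (e σ)) (F B (e σ))) := by
    intro σ _ τ _ hne
    have hex : ∃ n, σ n ≠ τ n := by
      by_contra hcon
      push Not at hcon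
      exact hne (funext hcon)
    classical
    set n := Nat.find hex with hn
    have hn1 : σ n ≠ τ n := Nat.find_spec hex
    have hn2 : ∀ k < n, σ k = τ k := by
      intro k hk
      by_contra hcon
      exact Nat.find_min hex hk hcon
    rw [Function.onFun, Set.disjoint_left]
    intro t ht1 ht2
    rcases Bool.eq_false_or_eq_true (σ n) with hs | hs
    · have ht : τ n = false := by
        rcases Bool.eq_false_or_eq_true (τ n) with h' | h'
        · exact absurd (hs.trans h'.symm) hn1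
        · exact h'
      have := hsep τ σ n (fun k hk => (hn2 k hk).symm) ht hs
      linarith [ht1.1, ht1.2, ht2.1, ht2.2]
    · have ht : τ n = true := by
        rcases Bool.eq_false_or_eq_true (τ n) with h' | h'
        · exact h'
        · exact absurd (hs.trans h'.symm) hn1
      have := hsep σ τ n hn2 hs ht
      linarith [ht1.1, ht1.2, ht2.1, ht2.2]
  have hcount : (univ : Set (ℕ → Bool)).Countable := by
    apply hdisj.countable_of_isOpen
    · intro σ _; exact isOpen_Ioo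
    · intro σ _
      exact nonempty_Ioo.mpr (h.left (e σ) (heI σ) hz hBI hzB)
  rw [countable_univ_iff] at hcount
  have h1 : Cardinal.mk (ℕ → Bool) ≤ Cardinal.aleph0 := Cardinal.mk_le_aleph0_iff.mpr hcount
  have h2 : Cardinal.mk (ℕ → Bool) = Cardinal.continuum := by
    rw [← Cardinal.power_def, Cardinal.mk_bool, Cardinal.mk_nat, Cardinal.two_power_aleph0]
  rw [h2] at h1
  exact absurd h1 (not_le.mpr Cardinal.aleph0_lt_continuum)

lemma approach (h : Good I F) {x0 c r : ℝ} (hx0 : x0 ∈ I) (hc : c ∈ I) (hr : r < F x0 c) :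
    ∃ x ∈ I, {y | x ≤ y} ∈ 𝓝[I] x0 ∧ r < F x c := by
  by_cases hmin : ∀ x ∈ I, x0 ≤ x
  · exact ⟨x0, hx0, mem_of_superset self_mem_nhdsWithin hmin, hr⟩
  · push Not at hmin
    obtain ⟨x1, hx1, h10⟩ := hmin
    have h1 : F x1 c < F x0 c := h.left c hc hx1 hx0 h10
    have hz : max r (F x1 c) ∈ I :=
      h.ord.out (h.mem _ hx1 _ hc) (h.mem _ hx0 _ hc) ⟨le_max_right _ _, (max_lt hr h1).le⟩
    obtain ⟨x, hx, hxx, hzx⟩ := h.no_jump hx0 hx1 h10 hc hz (max_lt hr h1)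
    refine ⟨x, hx, mem_nhdsWithin_of_mem_nhds ?_, lt_of_le_of_lt (le_max_left _ _) hzx⟩
    exact Ici_mem_nhds hxx

lemma lower (h : Good I F) {x0 c r : ℝ} (hx0 : x0 ∈ I) (hc : c ∈ I) (hr : r < F x0 c) :
    ∀ᶠ p in 𝓝[I ×ˢ I] (x0, c), r < F p.1 p.2 := by
  obtain ⟨x, hx, hxn, hxr⟩ := h.approach hx0 hc hr
  obtain ⟨y, hy, hyn, hyr⟩ := h.swap.approach (x0 := c) (c := x) hc hx hxr
  rw [nhdsWithin_prod_eq]
  have h1 : ∀ᶠ p in 𝓝[I] x0 ×ˢ 𝓝[I] c, p.1 ∈ {t | x ≤ t} ∩ I ∧ p.2 ∈ {t | y ≤ t} ∩ I :=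
    prod_mem_prod (inter_mem hxn self_mem_nhdsWithin) (inter_mem hyn self_mem_nhdsWithin)
  filter_upwards [h1] with p hp
  exact lt_of_lt_of_le hyr (h.mono hx hp.1.2 hy hp.2.2 hp.1.1 hp.2.1)

theorem continuousOn (h : Good I F) : ContinuousOn (Function.uncurry F) (I ×ˢ I) := by
  rintro ⟨x0, c⟩ ⟨hx0, hc⟩
  rw [ContinuousWithinAt, tendsto_order]
  constructor
  · intro r hr
    exact h.lower hx0 hc hr
  · intro r hr
    have h1 := h.reflect.lower (x0 := -x0) (c := -c) (r := -r) (by simpa using hx0)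
      (by simpa using hc) (by simpa using hr)
    have h2 : Tendsto (fun p : ℝ × ℝ => ((-p.1, -p.2) : ℝ × ℝ)) (𝓝[I ×ˢ I] (x0, c))
        (𝓝[(Neg.neg ⁻¹' I) ×ˢ (Neg.neg ⁻¹' I)] (-x0, -c)) := by
      apply tendsto_nhdsWithin_of_tendsto_nhds_of_eventually_within
      · have : Continuous (fun p : ℝ × ℝ => ((-p.1, -p.2) : ℝ × ℝ)) := by fun_prop
        exact (this.tendsto (x0, c)).mono_left nhdsWithin_le_nhds
      · filter_upwards [self_mem_nhdsWithin] with p hp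
        simpa using hp
    filter_upwards [h2.eventually h1] with p hp
    simp only [neg_neg] at hp
    exact neg_lt_neg_iff.mp hp

end Good

end Pool.Agent.LeadR3.Bisym
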