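import Mathlib

set_option autoImplicit false

namespace Pool.Agent.LeadR3.HalfDense

open Finset Matrix

variable {V : Type*} [Fintype V] [DecidableEq V]

/-- the bilinear form of the adjacency matrix -/
noncomputable def B (G : SimpleGraph V) (x y : V → ℝ) : ℝ := by
  classical exact ∑ u, ∑ v, (if G.Adj u v then x u * y v else 0)

lemma B_comm (G : SimpleGraph V) (x y : V → ℝ) : B G x y = B G y x := by
  classical
  unfold B
  rw [Finset.sum_comm]
  refine sum_congr rfl fun u _ => sum_congr rfl fun v _ => ?_
  simp only [G.adj_comm v u]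
  split_ifs <;> ring

lemma B_add_left (G : SimpleGraph V) (x x' y : V → ℝ) : B G (x + x') y = B G x y + B G x' y := by
  classical
  unfold B
  simp only [← sum_add_distrib]
  refine sum_congr rfl fun u _ => sum_congr rfl fun v _ => ?_
  split_ifs
  · simp only [Pi.add_apply]; ring
  · ring

lemma B_smul_left (G : SimpleGraph V) (c : ℝ) (x y : V → ℝ) : B G (c • x) y = c * B G x y := by
  classical
  unfold B
  simp only [mul_sum]
  refine sum_congr rfl fun u _ => sum_congr rfl fun v _ => ?_
  split_ifs
  · simp only [Pi.smul_apply, smul_eq_mul]; ring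
  · ring

lemma B_add_right (G : SimpleGraph V) (x y y' : V → ℝ) : B G x (y + y') = B G x y + B G x y' := by
  rw [B_comm, B_add_left, B_comm G y, B_comm G y']

lemma B_smul_right (G : SimpleGraph V) (c : ℝ) (x y : V → ℝ) : B G x (c • y) = c * B G x y := by
  rw [B_comm, B_smul_left, B_comm]

lemma q_add_smul (G : SimpleGraph V) (x y : V → ℝ) (t : ℝ) :
    B G (x + t • y) (x + t • y) = B G x x + 2 * t * B G x y + t ^ 2 * B G y y := by
  simp only [B_add_left, B_add_right, B_smul_left, B_smul_right, B_comm G y x]
  ring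

lemma B_nonneg (G : SimpleGraph V) {x y : V → ℝ} (hx : ∀ v, 0 ≤ x v) (hy : ∀ v, 0 ≤ y v) :
    0 ≤ B G x y := by
  classical
  unfold B
  refine sum_nonneg fun u _ => sum_nonneg fun v _ => ?_
  split_ifs
  · exact mul_nonneg (hx u) (hy v)
  · exact le_rfl

lemma B_le (G : SimpleGraph V) {x : V → ℝ} {C : ℝ} (hC : 0 ≤ C) (hx : ∀ v, |x v| ≤ C) :
    B G x x ≤ C ^ 2 * (Fintype.card V : ℝ) ^ 2 := by
  classical
  unfold B
  calc _ ≤ ∑ _u : V, ∑ _v : V, C ^ 2 := by
        refine sum_le_sum fun u _ => sum_le_sum fun v _ => ?_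
        split_ifs
        · calc x u * x v ≤ |x u * x v| := le_abs_self _
            _ = |x u| * |x v| := abs_mul _ _
            _ ≤ C * C := mul_le_mul (hx u) (hx v) (abs_nonneg _) hC
            _ = C ^ 2 := by ring
        · positivity
    _ = C ^ 2 * (Fintype.card V : ℝ) ^ 2 := by
        simp only [sum_const, card_univ, nsmul_eq_mul]; ring

/-- indicator -/
noncomputable def ind (W : Finset V) : V → ℝ := fun v => if v ∈ W then 1 else 0

lemma B_single (G : SimpleGraph V) (i j : V) :
    B G (Pi.single i 1) (Pi.single j (1:ℝ)) = by classical exact (if G.Adj i j then 1 else 0) := by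
  classical
  unfold B
  rw [sum_eq_single i, sum_eq_single j]
  · simp
  · intro v _ hv
    simp [hv]
  · simp
  · intro u _ hu
    refine sum_eq_zero fun v _ => ?_
    simp [hu]
  · simp

/-- pipage rounding -/
lemma rounding (G : SimpleGraph V) (m : ℕ) : ∀ (N : ℕ) (p : V → ℝ), (∀ v, 0 ≤ p v ∧ p v ≤ 1) →
    ∑ v, p v = m → (univ.filter fun v => p v ≠ 0 ∧ p v ≠ 1).card ≤ N →
    ∃ W : Finset V, W.card = m ∧ B G (ind W) (ind W) ≤ B G p p := by
  intro N
  induction N with
  | zero =>
    intro p hp hs hN
    have h0 : ∀ v, p v = 0 ∨ p v = 1 := by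
      intro v
      by_contra h
      push Not at h
      have : v ∈ (univ.filter fun v => p v ≠ 0 ∧ p v ≠ 1) := by simp [h]
      rw [Nat.le_zero, card_eq_zero] at hN
      rw [hN] at this
      simp at this
    refine ⟨univ.filter fun v => p v = 1, ?_, ?_⟩
    · have : ∑ v, p v = ∑ v, (if p v = 1 then (1:ℝ) else 0) := by
        refine sum_congr rfl fun v _ => ?_
        rcases h0 v with h | h <;> simp [h]
      rw [this, sum_boole] at hs
      exact_mod_cast hs
    · have : ind (univ.filter fun v => p v = 1) = p := by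
        funext v
        unfold ind
        rcases h0 v with h | h <;> simp [h]
      rw [this]
  | succ N ih =>
    intro p hp hs hN
    by_cases hex : ∃ i, p i ≠ 0 ∧ p i ≠ 1
    swap
    · apply ih p hp hs
      push Not at hex
      have : (univ.filter fun v => p v ≠ 0 ∧ p v ≠ 1) = ∅ := by
        rw [filter_eq_empty_iff]
        intro v _ h
        exact h.2 (hex v h.1)
      rw [this]; simp
    obtain ⟨i, hi⟩ := hex
    have hex2 : ∃ j, j ≠ i ∧ p j ≠ 0 ∧ p j ≠ 1 := by
      by_contra hno
      push Not at hno
      have h1 : ∑ v ∈ univ.erase i, p v = ((univ.erase i).filter fun v => p v = 1).card := by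
        have : ∑ v ∈ univ.erase i, p v = ∑ v ∈ univ.erase i, (if p v = 1 then (1:ℝ) else 0) := by
          refine sum_congr rfl fun v hv => ?_
          have hv' := ne_of_mem_erase hv
          by_cases h : p v = 0
          · simp [h]
          · simp [hno v hv' h]
        rw [this, sum_boole]
      have h2 : p i + ∑ v ∈ univ.erase i, p v = m := by
        rw [add_sum_erase _ _ (mem_univ i)]; exact hs
      rw [h1] at h2
      have h3 : p i = ((m : ℤ) - (((univ.erase i).filter fun v => p v = 1).card : ℤ) : ℤ) := by
        push_cast; linarith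
      have h4 : 0 < p i := lt_of_le_of_ne (hp i).1 (Ne.symm hi.1)
      have h5 : p i < 1 := lt_of_le_of_ne (hp i).2 hi.2
      rw [h3] at h4 h5
      have h6 : (0:ℤ) < (m : ℤ) - (((univ.erase i).filter fun v => p v = 1).card : ℤ) := by
        exact_mod_cast h4
      have h7 : (m : ℤ) - (((univ.erase i).filter fun v => p v = 1).card : ℤ) < 1 := by
        exact_mod_cast h5
      omega
    obtain ⟨j, hji, hj⟩ := hex2
    -- general move
    have key : ∀ a b : V, a ≠ b → (p a ≠ 0 ∧ p a ≠ 1) → (p b ≠ 0 ∧ p b ≠ 1) →
        B G p (Pi.single a 1) ≤ B G p (Pi.single b 1) →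
        ∃ W : Finset V, W.card = m ∧ B G (ind W) (ind W) ≤ B G p p := by
      intro a b hab ha hb hle
      set t : ℝ := min (1 - p a) (p b) with ht
      have ha1 : p a < 1 := lt_of_le_of_ne (hp a).2 ha.2
      have hb0 : 0 < p b := lt_of_le_of_ne (hp b).1 (Ne.symm hb.1)
      have ht0 : 0 < t := lt_min (by linarith) hb0
      have ht1 : t ≤ 1 - p a := min_le_left _ _
      have ht2 : t ≤ p b := min_le_right _ _
      set w : V → ℝ := Pi.single a 1 - Pi.single b 1 with hw
      set p' : V → ℝ := p + t • w with hp'
      have hpa : p' a = p a + t := by simp [hp', hw, hab]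
      have hpb : p' b = p b - t := by simp [hp', hw, hab.symm]; ring
      have hpo : ∀ v, v ≠ a → v ≠ b → p' v = p v := by
        intro v h1 h2; simp [hp', hw, h1, h2]
      have hB : B G p' p' ≤ B G p p := by
        rw [hp', q_add_smul]
        have e1 : B G p w = B G p (Pi.single a 1) - B G p (Pi.single b 1) := by
          rw [hw, sub_eq_add_neg, B_add_right]
          have : (-Pi.single b 1 : V → ℝ) = (-1 : ℝ) • Pi.single b 1 := by simp
          rw [this, B_smul_right]; ring
        have e2 : B G w w ≤ 0 := by
          have : w = Pi.single a 1 + (-1 : ℝ) • Pi.single b 1 := by rw [hw]; simp [sub_eq_add_neg]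
          rw [this, q_add_smul, B_single, B_single, B_single]
          simp only [SimpleGraph.irrefl, if_false]
          split_ifs <;> norm_num
        have e3 : 2 * t * B G p w ≤ 0 := by
          rw [e1]
          exact mul_nonpos_of_nonneg_of_nonpos (by positivity) (by linarith)
        have e4 : t ^ 2 * B G w w ≤ 0 := mul_nonpos_of_nonneg_of_nonpos (by positivity) e2
        linarith
      have hsum : ∑ v, p' v = m := by
        rw [← hs, hp']
        simp only [Pi.add_apply, Pi.smul_apply, smul_eq_mul, sum_add_distrib, ← mul_sum]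
        have : ∑ v, w v = 0 := by
          rw [hw]
          simp [sum_sub_distrib, Finset.sum_pi_single']
        rw [this]; ring
      have hcard : (univ.filter fun v => p' v ≠ 0 ∧ p' v ≠ 1).card ≤ N := by
        have hsub : (univ.filter fun v => p' v ≠ 0 ∧ p' v ≠ 1) ⊂
            (univ.filter fun v => p v ≠ 0 ∧ p v ≠ 1) := by
          rw [ssubset_iff_of_subset]
          · rcases min_choice (1 - p a) (p b) with h | h
            · refine ⟨a, by simp [ha], ?_⟩
              have : p' a = 1 := by rw [hpa, ht, h]; ring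
              simp [this]
            · refine ⟨b, by simp [hb], ?_⟩
              have : p' b = 0 := by rw [hpb, ht, h]; ring
              simp [this]
          · intro v hv
            simp only [mem_filter, mem_univ, true_and] at hv ⊢
            by_cases h1 : v = a
            · rw [h1]; exact ha
            by_cases h2 : v = b
            · rw [h2]; exact hb
            rwa [hpo v h1 h2] at hv
        have := card_lt_card hsub
        omega
      have hp'01 : ∀ v, 0 ≤ p' v ∧ p' v ≤ 1 := by
        intro v
        by_cases h1 : v = a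
        · rw [h1, hpa]
          exact ⟨by linarith [(hp a).1], by linarith⟩
        by_cases h2 : v = b
        · rw [h2, hpb]
          exact ⟨by linarith, by linarith [(hp b).2]⟩
        rw [hpo v h1 h2]; exact hp v
      obtain ⟨W, hW1, hW2⟩ := ih p' hp'01 hsum hcard
      exact ⟨W, hW1, hW2.trans hB⟩
    rcases le_total (B G p (Pi.single i 1)) (B G p (Pi.single j 1)) with h | h
    · exact key i j hji.symm hi hj h
    · exact key j i hji hj hi h

/-- Twice the number of edges inside `W`. -/
lemma B_ind (G : SimpleGraph V) (W : Finset V) :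
    B G (ind W) (ind W) = 2 * (({e : Sym2 V | e ∈ G.edgeSet ∧ ∀ v ∈ e, v ∈ W}).ncard : ℝ) := by
  classical
  let H : SimpleGraph V :=
    { Adj := fun u v => G.Adj u v ∧ u ∈ W ∧ v ∈ W
      symm := ⟨fun u v h => ⟨h.1.symm, h.2.2, h.2.1⟩⟩
      loopless := ⟨fun u h => G.loopless.irrefl u h.1⟩ }
  have h1 : {e : Sym2 V | e ∈ G.edgeSet ∧ ∀ v ∈ e, v ∈ W} = H.edgeSet := by
    ext e
    induction e using Sym2.ind with
    | _ a b =>
      simp only [Set.mem_setOf_eq, SimpleGraph.mem_edgeSet, Sym2.mem_iff]
      constructor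
      · rintro ⟨h, h'⟩
        exact ⟨h, h' a (Or.inl rfl), h' b (Or.inr rfl)⟩
      · rintro ⟨h, h2, h3⟩
        refine ⟨h, ?_⟩
        rintro v (rfl | rfl) <;> assumption
  rw [h1]
  have h2 : (H.edgeSet.ncard : ℝ) = (H.edgeFinset.card : ℝ) := by
    rw [← SimpleGraph.coe_edgeFinset, Set.ncard_coe_finset]
  rw [h2]
  have h3 := H.sum_degrees_eq_twice_card_edges
  have h4 : (∑ v, (H.degree v : ℝ)) = 2 * (H.edgeFinset.card : ℝ) := by exact_mod_cast h3
  rw [← h4]
  unfold B
  refine sum_congr rfl fun u _ => ?_
  have : (H.degree u : ℝ) = ∑ v, (if H.Adj u v then (1:ℝ) else 0) := by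
    rw [sum_boole, ← SimpleGraph.card_neighborFinset_eq_degree]
    congr 1
    congr 1
    ext v
    simp
  rw [this]
  refine sum_congr rfl fun v _ => ?_
  unfold ind
  by_cases hG : G.Adj u v <;> by_cases hu : u ∈ W <;> by_cases hv : v ∈ W <;>
    simp [H, hG, hu, hv]

end Pool.Agent.LeadR3.HalfDense
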