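import Mathlib
import Pool.Agent.LeadR3.HalfDense

set_option autoImplicit false
set_option linter.unusedSectionVars false

namespace Pool.Agent.LeadR3.HalfDense

open Finset

variable {V : Type*} [Fintype V] [DecidableEq V]

lemma B_one_add (G : SimpleGraph V) (x : V → ℝ) :
    B G (1 + x) (1 + x) = B G 1 1 + 2 * B G 1 x + B G x x := by
  have := q_add_smul G 1 x 1
  simp only [one_smul] at this
  rw [this]; ring

lemma ind_univ : ind (univ : Finset V) = 1 := by
  funext v; simp [ind]

/-- step 3: mean zero vectors -/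
lemma mean_zero (G : SimpleGraph V) (n : ℕ) (hn : 2 ≤ n) (hV : Fintype.card V = n) (c ε : ℝ)
    (h1 : B G 1 1 ≤ 2 * c * n ^ 2)
    (hW : ∀ W : Finset V, W.card = n / 2 →
      2 * ((1 - ε) * c * ((n : ℝ) / 2) ^ 2) ≤ B G (ind W) (ind W))
    (x : V → ℝ) (hx : ∀ v, |x v| ≤ 1) (hs : ∑ v, x v = 0) :
    -(2 * ε * c * n ^ 2) ≤ 2 * B G 1 x + B G x x := by
  have hn0 : (0:ℝ) < n := by positivity
  set m : ℕ := n / 2 with hm
  have hmn : (m : ℝ) ≤ n / 2 := by
    have : m * 2 ≤ n := Nat.div_mul_le_self n 2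
    have h : (m : ℝ) * 2 ≤ n := by exact_mod_cast this
    linarith
  have hm0 : (0:ℝ) ≤ m := Nat.cast_nonneg _
  set s : ℝ := m / n with hsd
  have hs0 : 0 ≤ s := by positivity
  have hs1 : s ≤ 1 / 2 := by
    rw [hsd, div_le_iff₀ hn0]; linarith
  have hx1 : ∀ v, 0 ≤ (1 + x) v := by
    intro v
    have := (abs_le.mp (hx v)).1
    simp only [Pi.add_apply, Pi.one_apply]; linarith
  have hx2 : ∀ v, (1 + x) v ≤ 2 := by
    intro v
    have := (abs_le.mp (hx v)).2
    simp only [Pi.add_apply, Pi.one_apply]; linarith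
  obtain ⟨W, hWc, hWB⟩ := rounding G m _ (s • (1 + x)) (fun v => by
    have h3 := hx1 v
    have h4 := hx2 v
    rw [Pi.smul_apply, smul_eq_mul]
    constructor
    · positivity
    · nlinarith) (by
    simp only [Pi.smul_apply, smul_eq_mul, ← mul_sum, Pi.add_apply, Pi.one_apply, sum_add_distrib,
      hs, sum_const, card_univ, hV, nsmul_eq_mul, mul_one, add_zero]
    rw [hsd]; field_simp) le_rfl
  have h5 := hW W hWc
  have h6 : B G (s • (1 + x)) (s • (1 + x)) = s ^ 2 * B G (1 + x) (1 + x) := by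
    rw [B_smul_left, B_smul_right]; ring
  have h7 : 0 ≤ B G (1 + x) (1 + x) := B_nonneg G hx1 hx1
  have h8 : s ^ 2 ≤ 1 / 4 := by nlinarith
  have h9 : s ^ 2 * B G (1 + x) (1 + x) ≤ 1 / 4 * B G (1 + x) (1 + x) :=
    mul_le_mul_of_nonneg_right h8 h7
  rw [B_one_add] at h9 h6
  rw [h6] at hWB
  nlinarith

/-- step 4: arbitrary vectors. -/
lemma all_vectors (c : ℝ) (hc : 0 < c) (η : ℝ) (hη : 0 < η) : ∃ ε : ℝ, 0 < ε ∧
    ∀ (V : Type) [Fintype V] [DecidableEq V] (G : SimpleGraph V) (n : ℕ), 2 ≤ n →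
    Fintype.card V = n →
    B G 1 1 ≤ 2 * c * n ^ 2 →
    (∀ W : Finset V, W.card = n / 2 →
      2 * ((1 - ε) * c * ((n : ℝ) / 2) ^ 2) ≤ B G (ind W) (ind W)) →
    ∀ y : V → ℝ, (∀ v, |y v| ≤ 1) → -(η * n ^ 2) ≤ B G y y := by
  set t : ℝ := min (1 / 2) (η / 16) with ht
  have ht0 : 0 < t := lt_min (by norm_num) (by positivity)
  have ht1 : t ≤ 1 / 2 := min_le_left _ _
  have ht2 : t ≤ η / 16 := min_le_right _ _
  refine ⟨η * t / (8 * c), by positivity, ?_⟩
  intro V _ _ G n hn hV h1 hW y hy
  have hn0 : (0:ℝ) < n := by positivity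
  have hcard : (Fintype.card V : ℝ) = n := by exact_mod_cast hV
  have hmz := mean_zero G n hn hV c (η * t / (8 * c)) h1 hW
  have e0 : 2 * (η * t / (8 * c)) * c * (n:ℝ) ^ 2 = η * t / 4 * n ^ 2 := by
    field_simp; ring
  rw [e0] at hmz
  set a : ℝ := (∑ v, y v) / n with ha
  have ha1 : |a| ≤ 1 := by
    rw [ha, abs_div, abs_of_pos hn0, div_le_one hn0]
    calc |∑ v, y v| ≤ ∑ v, |y v| := abs_sum_le_sum_abs _ _
      _ ≤ ∑ _v : V, 1 := sum_le_sum fun v _ => hy v
      _ = n := by simp [hcard]
  set z : V → ℝ := y - a • 1 with hz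
  have hz2 : ∀ v, |z v| ≤ 2 := by
    intro v
    have : z v = y v - a := by simp [hz]
    rw [this]
    calc |y v - a| ≤ |y v| + |a| := abs_sub _ _
      _ ≤ 2 := by linarith [hy v]
  have hzs : ∑ v, z v = 0 := by
    have : ∀ v, z v = y v - a := by intro v; simp [hz]
    simp only [this, sum_sub_distrib, sum_const, card_univ, nsmul_eq_mul, hcard]
    rw [ha]; field_simp; ring
  have hb : ∀ r : ℝ, |r| ≤ 1 / 2 →
      -(η * t / 4 * n ^ 2) ≤ 2 * (r * B G 1 z) + r ^ 2 * B G z z := by
    intro r hr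
    have := hmz (r • z) (fun v => by
      rw [Pi.smul_apply, smul_eq_mul, abs_mul]
      nlinarith [hz2 v, abs_nonneg (z v), abs_nonneg r]) (by
      simp only [Pi.smul_apply, smul_eq_mul, ← mul_sum, hzs, mul_zero])
    rw [B_smul_right, B_smul_left, B_smul_right] at this
    linarith
  have hzz : B G z z ≤ 4 * n ^ 2 := by
    have := B_le G (x := z) (C := 2) (by norm_num) hz2
    rw [hcard] at this
    linarith
  have g1 := hb (1/2) (by norm_num [abs_of_pos])
  have g2 := hb (-(1/2)) (by norm_num [abs_of_pos])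
  have g3 := hb t (by rw [abs_of_pos ht0]; exact ht1)
  have g4 := hb (-t) (by rw [abs_neg, abs_of_pos ht0]; exact ht1)
  -- q(z) ≥ -(η t) n^2 ≥ - (η/2) n^2
  have hn2 : (0:ℝ) < (n:ℝ) ^ 2 := by positivity
  have q1 : -(η / 2 * n ^ 2) ≤ B G z z := by
    have h : -(η * t * n ^ 2) ≤ B G z z := by nlinarith
    have h' : η * t * n ^ 2 ≤ η / 2 * n ^ 2 := by
      apply mul_le_mul_of_nonneg_right _ hn2.le
      nlinarith
    linarith
  have q2 : |B G 1 z| ≤ η / 4 * n ^ 2 := by
    have h5 : t ^ 2 * B G z z ≤ t ^ 2 * (4 * n ^ 2) := mul_le_mul_of_nonneg_left hzz (by positivity)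
    have h6 : t * (2 * t * n ^ 2) ≤ t * (η / 8 * n ^ 2) := by
      apply mul_le_mul_of_nonneg_left _ ht0.le
      apply mul_le_mul_of_nonneg_right _ hn2.le
      linarith
    rw [abs_le]
    constructor
    · have : t * (-(η / 4 * n ^ 2)) ≤ t * B G 1 z := by nlinarith
      exact le_of_mul_le_mul_left this ht0
    · have : t * B G 1 z ≤ t * (η / 4 * n ^ 2) := by nlinarith
      exact le_of_mul_le_mul_left this ht0
  have e1 : y = z + a • (1 : V → ℝ) := by rw [hz]; simp
  have e2 : B G y y = B G z z + 2 * a * B G 1 z + a ^ 2 * B G 1 1 := by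
    rw [e1, q_add_smul, B_comm G z 1]
  have h11 : 0 ≤ B G 1 1 := B_nonneg G (fun v => by simp) (fun v => by simp)
  have q3 : -(η / 2 * n ^ 2) ≤ 2 * a * B G 1 z := by
    have : |2 * a * B G 1 z| ≤ η / 2 * n ^ 2 := by
      rw [abs_mul, abs_mul, abs_of_pos (by norm_num : (0:ℝ) < 2)]
      have : |a| * |B G 1 z| ≤ 1 * (η / 4 * n ^ 2) :=
        mul_le_mul ha1 q2 (abs_nonneg _) zero_le_one
      nlinarith
    exact (abs_le.mp this).1
  rw [e2]
  have q4 : 0 ≤ a ^ 2 * B G 1 1 := by positivity
  linarith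

/-- step 5: cliques -/
lemma clique (k : ℕ) : ∀ β : ℝ, 0 < β → ∃ η : ℝ, 0 < η ∧
    ∀ (V : Type) [Fintype V] [DecidableEq V] (G : SimpleGraph V) (n : ℕ), 2 ≤ n →
    Fintype.card V = n →
    (∀ y : V → ℝ, (∀ v, |y v| ≤ 1) → -(η * n ^ 2) ≤ B G y y) →
    ∀ U : Finset V, β * n ^ 2 ≤ B G (ind U) (ind U) →
    ∃ s : Finset V, s ⊆ U ∧ G.IsNClique k s := by
  induction k with
  | zero =>
    intro β hβ
    refine ⟨1, one_pos, ?_⟩
    intro V _ _ G n hn hV hq U hU
    exact ⟨∅, by simp, by simp⟩
  | succ k ih =>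
    intro β hβ
    obtain ⟨η', hη', ih'⟩ := ih (β ^ 3 / 2) (by positivity)
    refine ⟨min η' (β ^ 3 / 2), lt_min hη' (by positivity), ?_⟩
    intro V _ _ G n hn hV hq U hU
    classical
    have hcard : (Fintype.card V : ℝ) = n := by exact_mod_cast hV
    have hn0 : (0:ℝ) < n := by positivity
    set η : ℝ := min η' (β ^ 3 / 2) with hηd
    set D : ℝ := B G (ind U) (ind U) with hD
    have hD0 : 0 < D := lt_of_lt_of_le (by positivity) hU
    set u : ℝ := (U.card : ℝ) with hu
    have hu0 : 0 < u := by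
      rw [hu]
      rcases Nat.eq_zero_or_pos U.card with h | h
      · exfalso
        have hU0 : U = ∅ := card_eq_zero.mp h
        have : D = 0 := by
          rw [hD, hU0]
          unfold B ind
          simp
        linarith
      · exact_mod_cast h
    have hun : u ≤ n := by
      rw [hu, ← hcard]
      exact_mod_cast card_le_univ U
    -- degrees inside U
    set dU : V → ℝ := fun a => B G (Pi.single a 1) (ind U) with hdU
    have hdU_eq : ∀ a, dU a = ∑ v, (if G.Adj a v then ind U v else 0) := by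
      intro a
      rw [hdU]
      simp only
      unfold B
      rw [sum_eq_single a]
      · refine sum_congr rfl fun v _ => ?_
        simp
      · intro b _ hb
        refine sum_eq_zero fun v _ => ?_
        simp [hb]
      · simp
    have hBind : ∀ (S : Finset V) (x : V → ℝ),
        B G (ind S) x = ∑ a ∈ S, ∑ v, (if G.Adj a v then x v else 0) := by
      intro S x
      unfold B ind
      rw [← sum_filter_add_sum_filter_not univ (fun a => a ∈ S)]
      rw [sum_eq_zero (s := univ.filter fun a => a ∉ S), add_zero]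
      · have : univ.filter (fun a => a ∈ S) = S := by ext; simp
        rw [this]
        refine sum_congr rfl fun a ha => sum_congr rfl fun v _ => ?_
        simp [ha]
      · intro a ha
        simp only [mem_filter, mem_univ, true_and] at ha
        refine sum_eq_zero fun v _ => ?_
        simp [ha]
    have hDsum : D = ∑ a ∈ U, dU a := by
      rw [hD, hBind]
      exact sum_congr rfl fun a _ => (hdU_eq a).symm
    have hDu : D ≤ u ^ 2 := by
      rw [hDsum]
      calc ∑ a ∈ U, dU a ≤ ∑ _a ∈ U, u := by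
            refine sum_le_sum fun a _ => ?_
            rw [hdU_eq]
            calc ∑ v, (if G.Adj a v then ind U v else 0) ≤ ∑ v, ind U v := by
                  refine sum_le_sum fun v _ => ?_
                  unfold ind
                  split_ifs <;> norm_num
              _ = u := by
                  unfold ind
                  simp [hu]
        _ = u ^ 2 := by
            rw [sum_const, nsmul_eq_mul, ← hu]; ring
    set N : V → Finset V := fun v => U.filter (fun w => G.Adj v w) with hN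
    set s : ℝ := D / u ^ 2 with hs
    have hs0 : 0 ≤ s := by positivity
    have hs1 : s ≤ 1 := by
      rw [hs, div_le_one (by positivity)]; exact hDu
    have hqv : ∀ v, -(η * n ^ 2) ≤ B G (ind (N v)) (ind (N v)) - 2 * s * B G (ind (N v)) (ind U)
        + s ^ 2 * D := by
      intro v
      have := hq (ind (N v) + (-s) • ind U) (fun w => by
        have h1 : (ind (N v) + (-s) • ind U) w = ind (N v) w - s * ind U w := by simp; ring
        rw [h1]
        unfold ind
        rw [hN]
        simp only [mem_filter]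
        rw [abs_le]
        by_cases h2 : w ∈ U <;> by_cases h3 : G.Adj v w <;> simp [h2, h3] <;>
          constructor <;> linarith)
      rw [q_add_smul] at this
      have e : (-s) ^ 2 = s ^ 2 := by ring
      rw [e] at this
      linarith
    have hsumq := sum_le_sum (s := U) (fun v _ => hqv v)
    simp only [sum_const, nsmul_eq_mul, sum_add_distrib, sum_sub_distrib, ← mul_sum] at hsumq
    have hcross : ∑ v ∈ U, B G (ind (N v)) (ind U) = ∑ a ∈ U, dU a ^ 2 := by
      have h1 : ∀ v, B G (ind (N v)) (ind U) = ∑ a ∈ U, (if G.Adj v a then dU a else 0) := by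
        intro v
        rw [hBind, hN]
        simp only
        rw [sum_filter]
        refine sum_congr rfl fun a _ => ?_
        split_ifs
        · rw [hdU_eq]
        · rfl
      simp only [h1]
      rw [sum_comm]
      refine sum_congr rfl fun a _ => ?_
      have h2 : ∑ x ∈ U, (if G.Adj x a then dU a else 0) =
          dU a * ∑ x ∈ U, (if G.Adj a x then (1:ℝ) else 0) := by
        rw [mul_sum]
        refine sum_congr rfl fun x _ => ?_
        simp only [G.adj_comm x a]
        split_ifs <;> simp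
      rw [h2]
      have h3 : ∑ x ∈ U, (if G.Adj a x then (1:ℝ) else 0) = dU a := by
        rw [hdU_eq]
        unfold ind
        rw [← sum_filter_add_sum_filter_not univ (fun x => x ∈ U)
          (fun v => if G.Adj a v then (if v ∈ U then (1:ℝ) else 0) else 0)]
        rw [sum_eq_zero (s := univ.filter fun a => a ∉ U), add_zero]
        · have : univ.filter (fun a => a ∈ U) = U := by ext; simp
          rw [this]
          refine sum_congr rfl fun x hx => ?_
          simp [hx]
        · intro x hx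
          simp only [mem_filter, mem_univ, true_and] at hx
          simp [hx]
      rw [h3]; ring
    have hCS : D ^ 2 ≤ u * ∑ a ∈ U, dU a ^ 2 := by
      rw [hDsum]
      exact sq_sum_le_card_mul_sum_sq
    rw [hcross] at hsumq
    set S2 : ℝ := ∑ a ∈ U, dU a ^ 2 with hS2
    have hS2l : D ^ 2 / u ≤ S2 := by
      rw [div_le_iff₀ hu0]; linarith
    have hlow : D ^ 3 / u ^ 3 - u * (η * n ^ 2) ≤ ∑ v ∈ U, B G (ind (N v)) (ind (N v)) := by
      have h1 : 2 * s * (D ^ 2 / u) ≤ 2 * s * S2 :=
        mul_le_mul_of_nonneg_left hS2l (by positivity)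
      have h2 : 2 * s * (D ^ 2 / u) = 2 * (D ^ 3 / u ^ 3) := by
        rw [hs]; field_simp
      have h3 : u * (s ^ 2 * D) = D ^ 3 / u ^ 3 := by
        rw [hs]; field_simp
      rw [← hu] at hsumq
      nlinarith
    have hD3 : β ^ 3 * n ^ 2 * u ≤ D ^ 3 / u ^ 3 := by
      rw [le_div_iff₀ (by positivity)]
      have h1 : (β * n ^ 2) ^ 3 ≤ D ^ 3 := pow_le_pow_left₀ (by positivity) hU 3
      have h2 : u ^ 4 ≤ (n:ℝ) ^ 4 := pow_le_pow_left₀ hu0.le hun 4
      calc β ^ 3 * n ^ 2 * u * u ^ 3 = β ^ 3 * n ^ 2 * u ^ 4 := by ring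
        _ ≤ β ^ 3 * n ^ 2 * n ^ 4 := mul_le_mul_of_nonneg_left h2 (by positivity)
        _ = (β * n ^ 2) ^ 3 := by ring
        _ ≤ D ^ 3 := h1
    have hη1 : η ≤ β ^ 3 / 2 := min_le_right _ _
    have hη2 : η ≤ η' := min_le_left _ _
    have hfin : u * (β ^ 3 / 2 * n ^ 2) ≤ ∑ v ∈ U, B G (ind (N v)) (ind (N v)) := by
      have h1 : u * (η * n ^ 2) ≤ u * (β ^ 3 / 2 * n ^ 2) := by
        apply mul_le_mul_of_nonneg_left _ hu0.le
        exact mul_le_mul_of_nonneg_right hη1 (by positivity)
      nlinarith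
    have hex : ∃ v ∈ U, β ^ 3 / 2 * n ^ 2 ≤ B G (ind (N v)) (ind (N v)) := by
      by_contra hno
      push Not at hno
      have hne : U.Nonempty := by
        rw [← card_pos]
        have : (0:ℝ) < (U.card : ℝ) := hu0
        exact_mod_cast this
      have := sum_lt_sum_of_nonempty hne hno
      simp only [sum_const, nsmul_eq_mul] at this
      linarith
    obtain ⟨v, hv, hvB⟩ := hex
    obtain ⟨t, ht1, ht2⟩ := ih' V G n hn hV (fun y hy => by
      have := hq y hy
      have h2 : η * n ^ 2 ≤ η' * n ^ 2 := mul_le_mul_of_nonneg_right hη2 (by positivity)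
      linarith) (N v) hvB
    refine ⟨insert v t, ?_, ?_⟩
    · intro w hw
      rcases mem_insert.mp hw with rfl | hw
      · exact hv
      · exact (mem_filter.mp (ht1 hw)).1
    · exact ht2.insert fun w hw => (mem_filter.mp (ht1 hw)).2

end Pool.Agent.LeadR3.HalfDense
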