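import Mathlib

set_option autoImplicit false

namespace Pool.Agent.LeadR3.RelFree

open FirstOrder

abbrev L : FirstOrder.Language := FirstOrder.Language.mk (fun _ => Unit) (fun _ => Empty)

section
variable {G : Type} [Group G] [S : L.Structure G]

/-- a group automorphism is an `L`-automorphism -/
def toL (hS : ∀ (n : ℕ) (f : L.Functions n) (xs : Fin n → G),
      FirstOrder.Language.Structure.funMap f xs = (List.ofFn xs).prod) (α : G ≃* G) :
    L.Equiv G G where
  toEquiv := α.toEquiv
  map_fun' := by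
    intro n f xs
    rw [hS, hS]
    show α (List.ofFn xs).prod = _
    rw [map_list_prod, List.map_ofFn]
    rfl
  map_rel' := by
    intro n r
    exact r.elim

lemma realize_aut (hS : ∀ (n : ℕ) (f : L.Functions n) (xs : Fin n → G),
      FirstOrder.Language.Structure.funMap f xs = (List.ofFn xs).prod) (α : G ≃* G)
    {β : Type} (φ : L.Formula β) (v : β → G) : φ.Realize (fun i => α (v i)) ↔ φ.Realize v := by
  have := FirstOrder.Language.StrongHomClass.realize_formula (toL hS α) φ (v := v)
  exact this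

lemma realize_congr (φ : L.Formula ℕ) (v w : ℕ → G)
    (h : ∀ i ∈ φ.freeVarFinset, v i = w i) : φ.Realize v ↔ φ.Realize w := by
  have h1 := FirstOrder.Language.BoundedFormula.realize_restrictFreeVar (φ := φ) (f := id)
    (v := fun i : φ.freeVarFinset => v i) (v' := v) (xs := default) (fun a => rfl)
  have h2 := FirstOrder.Language.BoundedFormula.realize_restrictFreeVar (φ := φ) (f := id)
    (v := fun i : φ.freeVarFinset => v i) (v' := w) (xs := default) (fun a => h a.1 a.2)
  exact h1.symm.trans h2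

/-- nested products: `W v z n i = v_i (W v z (n-1) (i+1))^2`, `W v z 0 i = z`. -/
def W (v : ℕ → G) (z : G) : ℕ → ℕ → G
  | 0, _ => z
  | n + 1, i => v i * W v z n (i + 1) ^ 2

/-- the term -/
def tm : ℕ → ℕ → L.Term ((Unit ⊕ ℕ) ⊕ Fin 1)
  | 0, _ => FirstOrder.Language.Term.var (Sum.inr 0)
  | n + 1, i => FirstOrder.Language.Term.func (l := 3) (show L.Functions 3 from ())
      ![FirstOrder.Language.Term.var (Sum.inl (Sum.inr i)), tm n (i + 1), tm n (i + 1)]

lemma realize_tm (hS : ∀ (n : ℕ) (f : L.Functions n) (xs : Fin n → G),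
      FirstOrder.Language.Structure.funMap f xs = (List.ofFn xs).prod)
    (v : ℕ → G) (c z : G) (n : ℕ) : ∀ i : ℕ,
    (tm n i).realize (Sum.elim (Sum.elim (fun _ => c) v) (fun _ => z)) = W v z n i := by
  induction n with
  | zero => intro i; simp [tm, W]
  | succ n ih =>
    intro i
    simp only [tm, W, FirstOrder.Language.Term.realize_func]
    rw [hS]
    simp [List.ofFn_succ, ih, sq]

def fm (n : ℕ) : L.Formula (Unit ⊕ ℕ) :=
  (FirstOrder.Language.Term.bdEqual
    (FirstOrder.Language.Term.var (Sum.inl (Sum.inl ()))) (tm n 0)).ex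

lemma realize_fm (hS : ∀ (n : ℕ) (f : L.Functions n) (xs : Fin n → G),
      FirstOrder.Language.Structure.funMap f xs = (List.ofFn xs).prod)
    (v : ℕ → G) (c : G) (n : ℕ) :
    (fm n).Realize (Sum.elim (fun _ => c) v) ↔ ∃ z, c = W v z n 0 := by
  unfold fm FirstOrder.Language.Formula.Realize
  rw [FirstOrder.Language.BoundedFormula.realize_ex]
  refine exists_congr fun z => ?_
  rw [FirstOrder.Language.BoundedFormula.realize_bdEqual]
  have : (Fin.snoc default z : Fin 1 → G) = fun _ => z := by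
    funext i
    fin_cases i
    simp [Fin.snoc]
  rw [this, realize_tm hS]
  simp

end

section
variable {G : Type} [Group G]

/-- elementary transvections give automorphisms -/
lemma transv (X : Set G) (hgen : Subgroup.closure X = ⊤)
    (hext : ∀ f : X → G, ∃ φ : G →* G, ∀ x : X, φ x = f x)
    (a b : X) (hab : a ≠ b) : ∃ τ : G ≃* G, τ a = (a : G) * ((b : G) ^ 2)⁻¹ ∧
      ∀ x : X, x ≠ a → τ x = x := by
  classical
  obtain ⟨φ, hφ⟩ := hext (fun x => if x = a then (a : G) * ((b : G) ^ 2)⁻¹ else x)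
  obtain ⟨ψ, hψ⟩ := hext (fun x => if x = a then (a : G) * (b : G) ^ 2 else x)
  have hφa : φ a = (a : G) * ((b : G) ^ 2)⁻¹ := by rw [hφ]; simp
  have hφx : ∀ x : X, x ≠ a → φ x = x := by intro x hx; rw [hφ]; simp [hx]
  have hψa : ψ a = (a : G) * (b : G) ^ 2 := by rw [hψ]; simp
  have hψx : ∀ x : X, x ≠ a → ψ x = x := by intro x hx; rw [hψ]; simp [hx]
  have h1 : φ.comp ψ = MonoidHom.id G := by
    apply MonoidHom.eq_of_eqOn_dense hgen
    intro x hx
    show φ (ψ x) = x
    by_cases h : (⟨x, hx⟩ : X) = a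
    · have : x = a := by rw [← h]
      rw [this, hψa, map_mul, map_pow, hφa, hφx b hab.symm]
      group
    · have e : ψ x = x := hψx ⟨x, hx⟩ h
      rw [e]
      exact hφx ⟨x, hx⟩ h
  have h2 : ψ.comp φ = MonoidHom.id G := by
    apply MonoidHom.eq_of_eqOn_dense hgen
    intro x hx
    show ψ (φ x) = x
    by_cases h : (⟨x, hx⟩ : X) = a
    · have : x = a := by rw [← h]
      rw [this, hφa, map_mul, map_inv, map_pow, hψa, hψx b hab.symm]
      group
    · have e : φ x = x := hφx ⟨x, hx⟩ h
      rw [e]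
      exact hψx ⟨x, hx⟩ h
  exact ⟨MonoidHom.toMulEquiv φ ψ h2 h1, hφa, hφx⟩

lemma autos (X : Set G) (hgen : Subgroup.closure X = ⊤)
    (hext : ∀ f : X → G, ∃ φ : G →* G, ∀ x : X, φ x = f x)
    (e : ℕ → X) (he : Function.Injective e) (n : ℕ) :
    ∃ α : G ≃* G, (∀ i < n, α (e i) = (e i : G) * ((e (i + 1) : G) ^ 2)⁻¹) ∧
      ∀ i, n ≤ i → α (e i) = e i := by
  induction n with
  | zero => exact ⟨MulEquiv.refl G, by simp, by simp⟩
  | succ n ih =>
    obtain ⟨α, h1, h2⟩ := ih
    obtain ⟨τ, h3, h4⟩ := transv X hgen hext (e n) (e (n + 1)) (fun h => by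
      have := he h; omega)
    refine ⟨τ.trans α, ?_, ?_⟩
    · intro i hi
      rcases Nat.lt_succ_iff_lt_or_eq.mp hi with h | rfl
      · show α (τ (e i)) = _
        rw [h4 (e i) (fun h' => by have := he h'; omega)]
        exact h1 i h
      · show α (τ (e i)) = _
        rw [h3, map_mul, map_inv, map_pow, h2 i le_rfl, h2 (i + 1) (by omega)]
    · intro i hi
      show α (τ (e i)) = _
      rw [h4 (e i) (fun h' => by have := he h'; omega)]
      exact h2 i (by omega)

end

theorem main (G : Type) [Group G] [S : L.Structure G]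
    (htf : ∀ g : G, ∀ n : ℕ, 0 < n → g ^ n = 1 → g = 1)
    (X : Set G) (hXi : X.Infinite) (hgen : Subgroup.closure X = ⊤)
    (hext : ∀ f : X → G, ∃ φ : G →* G, ∀ x : X, φ x = f x)
    (hS : ∀ (n : ℕ) (f : L.Functions n) (xs : Fin n → G),
      FirstOrder.Language.Structure.funMap f xs = (List.ofFn xs).prod) :
    ¬ ∀ a b : ℕ → G,
        (∀ φ : L.Formula ℕ, φ.Realize a ↔ φ.Realize b) →
        ∀ c : G, ∃ d : G,
          ∀ ψ : L.Formula (Unit ⊕ ℕ),
            ψ.Realize (Sum.elim (fun _ => c) a) ↔ ψ.Realize (Sum.elim (fun _ => d) b) := by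
  classical
  intro hhom
  have : Infinite X := hXi.to_subtype
  let em : ℕ ↪ X := Infinite.natEmbedding X
  obtain ⟨e, he'⟩ : ∃ e : ℕ → X, e = fun i => em i := ⟨_, rfl⟩
  have he : Function.Injective e := by rw [he']; exact em.injective
  set x : ℕ → G := fun i => (e i : G) with hx
  set y : ℕ → G := fun i => (e i : G) * ((e (i + 1) : G) ^ 2)⁻¹ with hy
  have htypes : ∀ φ : L.Formula ℕ, φ.Realize y ↔ φ.Realize x := by
    intro φ
    obtain ⟨N, hN⟩ : ∃ N, ∀ i ∈ φ.freeVarFinset, i < N :=
      ⟨φ.freeVarFinset.sup id + 1, fun i hi => Nat.lt_succ_of_le (Finset.le_sup (f := id) hi)⟩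
    obtain ⟨α, hα, -⟩ := autos X hgen hext e he N
    rw [← realize_aut hS α φ x]
    exact realize_congr φ _ _ (fun i hi => (hα i (hN i hi)).symm)
  obtain ⟨d, hd⟩ := hhom y x htypes (x 0)
  -- divisibility of `x 0` over `y`
  have hWy : ∀ n i, W y (x (i + n)) n i = x i := by
    intro n
    induction n with
    | zero => intro i; simp [W]
    | succ n ih =>
      intro i
      simp only [W]
      have : i + (n + 1) = (i + 1) + n := by ring
      rw [this, ih (i + 1)]
      simp [hy, hx]
  have hdn : ∀ n, ∃ z, d = W x z n 0 := by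
    intro n
    rw [← realize_fm hS x d n, ← hd (fm n), realize_fm hS]
    exact ⟨x n, by have := hWy n 0; simpa using this.symm⟩
  -- projections
  have hproj : ∀ j : ℕ, ∃ φ : G →* G, φ (x j) = x j ∧ ∀ u : X, u ≠ e j → φ u = 1 := by
    intro j
    obtain ⟨φ, hφ⟩ := hext (fun u => if u = e j then (e j : G) else 1)
    refine ⟨φ, ?_, ?_⟩
    · rw [hx]; simp only; rw [hφ]; simp
    · intro u hu; rw [hφ]; simp [hu]
  choose pr hpr1 hpr2 using hproj
  have hfin : ∀ g : G, ∃ N, ∀ j, N ≤ j → pr j g = 1 := by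
    intro g
    have hg : g ∈ Subgroup.closure X := by rw [hgen]; trivial
    induction hg using Subgroup.closure_induction with
    | mem g hg =>
      by_cases h : ∃ i, e i = ⟨g, hg⟩
      · obtain ⟨i, hi⟩ := h
        refine ⟨i + 1, fun j hj => ?_⟩
        have := hpr2 j ⟨g, hg⟩ (by
          intro h'
          rw [← hi] at h'
          have := he h'
          omega)
        exact this
      · refine ⟨0, fun j _ => ?_⟩
        exact hpr2 j ⟨g, hg⟩ (fun h' => h ⟨j, h'.symm⟩)
    | one => exact ⟨0, fun j _ => map_one _⟩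
    | mul a b _ _ iha ihb =>
      obtain ⟨N, hN⟩ := iha
      obtain ⟨M, hM⟩ := ihb
      refine ⟨max N M, fun j hj => ?_⟩
      rw [map_mul, hN j (le_of_max_le_left hj), hM j (le_of_max_le_right hj), one_mul]
    | inv a _ iha =>
      obtain ⟨N, hN⟩ := iha
      refine ⟨N, fun j hj => ?_⟩
      rw [map_inv, hN j hj, inv_one]
  obtain ⟨j, hj⟩ := hfin d
  obtain ⟨z, hz⟩ := hdn (j + 1)
  have hprj : pr j d = 1 := hj j le_rfl
  -- the image of `pr j`
  have himg : ∀ g : G, pr j g ∈ Subgroup.zpowers (x j) := by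
    intro g
    have hg : g ∈ Subgroup.closure X := by rw [hgen]; trivial
    induction hg using Subgroup.closure_induction with
    | mem g hg =>
      by_cases h : (⟨g, hg⟩ : X) = e j
      · have : g = x j := by rw [hx]; simp only; rw [← h]
        rw [this, hpr1]
        exact Subgroup.mem_zpowers _
      · have := hpr2 j ⟨g, hg⟩ h
        rw [show pr j g = 1 from this]
        exact Subgroup.one_mem _
    | one => rw [map_one]; exact Subgroup.one_mem _
    | mul a b _ _ iha ihb => rw [map_mul]; exact Subgroup.mul_mem _ iha ihb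
    | inv a _ iha => rw [map_inv]; exact Subgroup.inv_mem _ iha
  have hWp : ∀ k i, i + k = j → pr j (W x z (k + 1) i) = (x j * pr j z ^ 2) ^ (2 ^ k) := by
    intro k
    induction k with
    | zero =>
      intro i hi
      have : i = j := by omega
      subst this
      simp [W, map_mul, map_pow, hpr1]
    | succ k ih =>
      intro i hi
      have h1 : pr j (x i) = 1 := hpr2 j (e i) (fun h => by have := he h; omega)
      rw [W, map_mul, map_pow, h1, one_mul, ih (i + 1) (by omega), ← pow_mul]
      congr 1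
  have h3 := hWp j 0 (by omega)
  rw [← hz, hprj] at h3
  have h4 := htf _ _ (by positivity) h3.symm
  obtain ⟨a, ha⟩ := Subgroup.mem_zpowers_iff.mp (himg z)
  rw [← ha] at h4
  have h5 : x j ^ (1 + 2 * a : ℤ) = 1 := by
    have : x j * (x j ^ a) ^ 2 = x j ^ (1 + 2 * a : ℤ) := by
      rw [zpow_add, zpow_one, mul_comm 2 a, zpow_mul]
      norm_cast
    rw [← this]; exact h4
  have h6 : x j = 1 := by
    obtain ⟨m, hm⟩ : ∃ m : ℕ, 0 < m ∧ x j ^ m = 1 := by
      refine ⟨(1 + 2 * a).natAbs, by omega, ?_⟩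
      rcases Int.natAbs_eq (1 + 2 * a) with h | h
      · rw [h] at h5
        exact_mod_cast h5
      · rw [h, zpow_neg, inv_eq_one] at h5
        exact_mod_cast h5
    exact htf _ m hm.1 hm.2
  -- basis elements are nontrivial
  have h7 : x (j + 1) ≠ x j := by
    intro h
    have := he (Subtype.ext h)
    omega
  obtain ⟨φ, hφ⟩ := hext (fun _ => x (j + 1))
  have h8 := hφ (e j)
  have h9 : ((e j : X) : G) = 1 := h6
  rw [h9, map_one] at h8
  apply h7
  rw [h6]
  exact h8.symm

end Pool.Agent.LeadR3.RelFree
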