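import Mathlib

set_option autoImplicit false

namespace Pool.Agent.LeadR3.SL2IG

open Polynomial Cardinal
open scoped Cardinal

abbrev G := Matrix.SpecialLinearGroup (Fin 2) ℝ

/-- entries in `K` -/
def HasE (K : Subfield ℝ) (g : G) : Prop := ∀ i j, g i j ∈ K

lemma mul00 (g h : G) : (g * h) 0 0 = g 0 0 * h 0 0 + g 0 1 * h 1 0 := by
  simp [Matrix.SpecialLinearGroup.coe_mul, Matrix.mul_apply, Fin.sum_univ_two]
lemma mul01 (g h : G) : (g * h) 0 1 = g 0 0 * h 0 1 + g 0 1 * h 1 1 := by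
  simp [Matrix.SpecialLinearGroup.coe_mul, Matrix.mul_apply, Fin.sum_univ_two]
lemma mul10 (g h : G) : (g * h) 1 0 = g 1 0 * h 0 0 + g 1 1 * h 1 0 := by
  simp [Matrix.SpecialLinearGroup.coe_mul, Matrix.mul_apply, Fin.sum_univ_two]
lemma mul11 (g h : G) : (g * h) 1 1 = g 1 0 * h 0 1 + g 1 1 * h 1 1 := by
  simp [Matrix.SpecialLinearGroup.coe_mul, Matrix.mul_apply, Fin.sum_univ_two]
lemma inv00 (g : G) : g⁻¹ 0 0 = g 1 1 := by
  simp [Matrix.SpecialLinearGroup.coe_inv, Matrix.adjugate_fin_two]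
lemma inv01 (g : G) : g⁻¹ 0 1 = -g 0 1 := by
  simp [Matrix.SpecialLinearGroup.coe_inv, Matrix.adjugate_fin_two]
lemma inv10 (g : G) : g⁻¹ 1 0 = -g 1 0 := by
  simp [Matrix.SpecialLinearGroup.coe_inv, Matrix.adjugate_fin_two]
lemma inv11 (g : G) : g⁻¹ 1 1 = g 0 0 := by
  simp [Matrix.SpecialLinearGroup.coe_inv, Matrix.adjugate_fin_two]
lemma det_eq (g : G) : g 0 0 * g 1 1 - g 0 1 * g 1 0 = 1 := by
  have := g.2
  rwa [Matrix.det_fin_two] at this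

lemma HasE.one (K : Subfield ℝ) : HasE K 1 := by
  intro i j
  rw [Matrix.SpecialLinearGroup.coe_one, Matrix.one_apply]
  split_ifs
  · exact K.one_mem
  · exact K.zero_mem

lemma HasE.mul {K : Subfield ℝ} {g h : G} (hg : HasE K g) (hh : HasE K h) : HasE K (g * h) := by
  intro i j
  fin_cases i <;> fin_cases j
  · show (g * h) 0 0 ∈ K
    rw [mul00]; exact K.add_mem (K.mul_mem (hg _ _) (hh _ _)) (K.mul_mem (hg _ _) (hh _ _))
  · show (g * h) 0 1 ∈ K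
    rw [mul01]; exact K.add_mem (K.mul_mem (hg _ _) (hh _ _)) (K.mul_mem (hg _ _) (hh _ _))
  · show (g * h) 1 0 ∈ K
    rw [mul10]; exact K.add_mem (K.mul_mem (hg _ _) (hh _ _)) (K.mul_mem (hg _ _) (hh _ _))
  · show (g * h) 1 1 ∈ K
    rw [mul11]; exact K.add_mem (K.mul_mem (hg _ _) (hh _ _)) (K.mul_mem (hg _ _) (hh _ _))

lemma HasE.inv {K : Subfield ℝ} {g : G} (hg : HasE K g) : HasE K g⁻¹ := by
  intro i j
  fin_cases i <;> fin_cases j
  · show g⁻¹ 0 0 ∈ K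
    rw [inv00]; exact hg _ _
  · show g⁻¹ 0 1 ∈ K
    rw [inv01]; exact K.neg_mem (hg _ _)
  · show g⁻¹ 1 0 ∈ K
    rw [inv10]; exact K.neg_mem (hg _ _)
  · show g⁻¹ 1 1 ∈ K
    rw [inv11]; exact hg _ _

lemma HasE.neg {K : Subfield ℝ} {g : G} (hg : HasE K g) : HasE K (-g) := by
  intro i j
  rw [Matrix.SpecialLinearGroup.coe_neg, Matrix.neg_apply]
  exact K.neg_mem (hg _ _)

lemma HasE.mono {K L : Subfield ℝ} (h : K ≤ L) {g : G} (hg : HasE K g) : HasE L g :=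
  fun i j => h (hg i j)

/-- polynomial degree states of vectors -/
def T1 (K : Subfield ℝ) (t : ℝ) (d : ℕ) (x y : ℝ) : Prop :=
  ∃ p q : K[X], p.natDegree ≤ d ∧ q.natDegree = d ∧ q ≠ 0 ∧ aeval t p = x ∧ aeval t q = y

def T2 (K : Subfield ℝ) (t : ℝ) (d : ℕ) (x y : ℝ) : Prop :=
  ∃ p q : K[X], p.natDegree = d ∧ q.natDegree < d ∧ aeval t p = x ∧ aeval t q = y

lemma stepA {K : Subfield ℝ} {t : ℝ} {d : ℕ} {x y : ℝ} (h : T2 K t d x y) {g : G} (hg : HasE K g)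
    (h10 : g 1 0 ≠ 0) : T1 K t d (g 0 0 * x + g 0 1 * y) (g 1 0 * x + g 1 1 * y) := by
  obtain ⟨p, q, hp, hq, rfl, rfl⟩ := h
  refine ⟨C ⟨g 0 0, hg 0 0⟩ * p + C ⟨g 0 1, hg 0 1⟩ * q, C ⟨g 1 0, hg 1 0⟩ * p + C ⟨g 1 1, hg 1 1⟩ * q,
    ?_, ?_, ?_, ?_, ?_⟩
  · refine (natDegree_add_le _ _).trans (max_le ?_ ?_)
    · exact (natDegree_C_mul_le _ _).trans hp.le
    · exact (natDegree_C_mul_le _ _).trans hq.le
  · have h1 : (C (⟨g 1 0, hg 1 0⟩ : K) * p).natDegree = d := by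
      rw [natDegree_C_mul, hp]
      intro h0
      exact h10 (congrArg Subtype.val h0)
    have h2 : (C (⟨g 1 1, hg 1 1⟩ : K) * q).natDegree < (C (⟨g 1 0, hg 1 0⟩ : K) * p).natDegree := by
      rw [h1]; exact lt_of_le_of_lt (natDegree_C_mul_le _ _) hq
    rw [natDegree_add_eq_left_of_natDegree_lt h2, h1]
  · intro h0
    have h1 : (C (⟨g 1 0, hg 1 0⟩ : K) * p).natDegree = d := by
      rw [natDegree_C_mul, hp]
      intro h0
      exact h10 (congrArg Subtype.val h0)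
    have h2 : (C (⟨g 1 1, hg 1 1⟩ : K) * q).natDegree < (C (⟨g 1 0, hg 1 0⟩ : K) * p).natDegree := by
      rw [h1]; exact lt_of_le_of_lt (natDegree_C_mul_le _ _) hq
    have h3 := natDegree_add_eq_left_of_natDegree_lt h2
    rw [h0, h1, natDegree_zero] at h3
    omega
  · simp only [map_add, map_mul, aeval_C]
    rfl
  · simp only [map_add, map_mul, aeval_C]
    rfl

lemma stepQ {K : Subfield ℝ} {t : ℝ} {d : ℕ} {x y : ℝ} (h : T1 K t d x y) {b : G} (hb : HasE K b)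
    (h01 : b 0 1 ≠ 0) :
    T2 K t (d + 4) (t ^ 2 * b 0 0 * x + t ^ 4 * b 0 1 * y) (b 1 0 * x + t ^ 2 * b 1 1 * y) := by
  obtain ⟨p, q, hp, hq, hq0, rfl, rfl⟩ := h
  refine ⟨X ^ 2 * (C ⟨b 0 0, hb 0 0⟩ * p) + X ^ 4 * (C ⟨b 0 1, hb 0 1⟩ * q),
    C ⟨b 1 0, hb 1 0⟩ * p + X ^ 2 * (C ⟨b 1 1, hb 1 1⟩ * q), ?_, ?_, ?_, ?_⟩
  · have h0 : C (⟨b 0 1, hb 0 1⟩ : K) * q ≠ 0 := by
      apply mul_ne_zero _ hq0
      rw [Ne, C_eq_zero]
      intro h0
      exact h01 (congrArg Subtype.val h0)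
    have h1 : (X ^ 4 * (C (⟨b 0 1, hb 0 1⟩ : K) * q)).natDegree = d + 4 := by
      rw [natDegree_X_pow_mul _ h0, natDegree_C_mul, hq]
      intro h0
      exact h01 (congrArg Subtype.val h0)
    have h2 : (X ^ 2 * (C (⟨b 0 0, hb 0 0⟩ : K) * p)).natDegree
        < (X ^ 4 * (C (⟨b 0 1, hb 0 1⟩ : K) * q)).natDegree := by
      rw [h1]
      have := natDegree_mul_le (p := X ^ 2) (q := (C (⟨b 0 0, hb 0 0⟩ : K) * p))
      have h3 := natDegree_C_mul_le (⟨b 0 0, hb 0 0⟩ : K) p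
      have h4 : (X ^ 2 : K[X]).natDegree ≤ 2 := natDegree_X_pow_le 2
      omega
    rw [natDegree_add_eq_right_of_natDegree_lt h2, h1]
  · have h1 := natDegree_add_le (C (⟨b 1 0, hb 1 0⟩ : K) * p) (X ^ 2 * (C (⟨b 1 1, hb 1 1⟩ : K) * q))
    have h2 := natDegree_C_mul_le (⟨b 1 0, hb 1 0⟩ : K) p
    have h3 := natDegree_mul_le (p := X ^ 2) (q := (C (⟨b 1 1, hb 1 1⟩ : K) * q))
    have h4 := natDegree_C_mul_le (⟨b 1 1, hb 1 1⟩ : K) q
    have h5 : (X ^ 2 : K[X]).natDegree ≤ 2 := natDegree_X_pow_le 2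
    rcases le_total (C (⟨b 1 0, hb 1 0⟩ : K) * p).natDegree
      (X ^ 2 * (C (⟨b 1 1, hb 1 1⟩ : K) * q)).natDegree with h | h
    · rw [max_eq_right h] at h1; omega
    · rw [max_eq_left h] at h1; omega
  · simp only [map_add, map_mul, map_pow, aeval_X, aeval_C]
    show t ^ 2 * (b 0 0 * _) + t ^ 4 * (b 0 1 * _) = _
    ring
  · simp only [map_add, map_mul, map_pow, aeval_X, aeval_C]
    show (b 1 0 * _) + t ^ 2 * (b 1 1 * _) = _
    ring

/-- diagonal matrix -/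
noncomputable def D (t : ℝ) (ht : t ≠ 0) : G :=
  ⟨!![t, 0; 0, t⁻¹], by rw [Matrix.det_fin_two_of]; field_simp; ring⟩

lemma D00 (t : ℝ) (ht : t ≠ 0) : D t ht 0 0 = t := by simp [D]
lemma D01 (t : ℝ) (ht : t ≠ 0) : D t ht 0 1 = 0 := by simp [D]
lemma D10 (t : ℝ) (ht : t ≠ 0) : D t ht 1 0 = 0 := by simp [D]
lemma D11 (t : ℝ) (ht : t ≠ 0) : D t ht 1 1 = t⁻¹ := by simp [D]

lemma conjD01 (t : ℝ) (ht : t ≠ 0) (b : G) :
    (D t ht * b * (D t ht)⁻¹) 0 1 = t ^ 2 * b 0 1 := by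
  rw [mul01, mul00, mul01, inv01, inv11, D00, D01]; ring
lemma conjD00 (t : ℝ) (ht : t ≠ 0) (b : G) :
    (D t ht * b * (D t ht)⁻¹) 0 0 = b 0 0 := by
  rw [mul00, mul00, mul01, inv00, inv10, D00, D01, D11, D10]; field_simp; ring
lemma conjD10 (t : ℝ) (ht : t ≠ 0) (b : G) :
    t ^ 2 * (D t ht * b * (D t ht)⁻¹) 1 0 = b 1 0 := by
  rw [mul10, mul10, mul11, inv00, inv10, D10, D11]; field_simp; ring
lemma conjD11 (t : ℝ) (ht : t ≠ 0) (b : G) :
    (D t ht * b * (D t ht)⁻¹) 1 1 = b 1 1 := by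
  rw [mul11, mul10, mul11, inv01, inv11, D10, D11, D00, D01]; field_simp; ring

def Cen (g : G) : Prop := g = 1 ∨ g = -1

/-- reduced words starting and ending with a conjugated power of `c` -/
inductive Mid (t : ℝ) (ht : t ≠ 0) (A : Subgroup G) (c : G) : ℕ → G → Prop
  | base (b : G) (hb : b ∈ Subgroup.zpowers c) (hc : ¬ Cen b) :
      Mid t ht A c 1 (D t ht * b * (D t ht)⁻¹)
  | step (b a m : G) (k : ℕ) (hb : b ∈ Subgroup.zpowers c) (hc : ¬ Cen b) (ha : a ∈ A)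
      (hac : ¬ Cen a) (hm : Mid t ht A c k m) :
      Mid t ht A c (k + 1) (D t ht * b * (D t ht)⁻¹ * (a * m))

lemma Mid.pos {t : ℝ} {ht : t ≠ 0} {A : Subgroup G} {c : G} {k : ℕ} {m : G}
    (h : Mid t ht A c k m) : 1 ≤ k := by
  cases h <;> omega

lemma Mid.state {t : ℝ} {ht : t ≠ 0} {A : Subgroup G} {c : G} {K : Subfield ℝ}
    (hA : ∀ a ∈ A, HasE K a) (hA10 : ∀ a ∈ A, ¬ Cen a → a 1 0 ≠ 0)
    (hc : HasE K c) (hc01 : ∀ b ∈ Subgroup.zpowers c, ¬ Cen b → b 0 1 ≠ 0)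
    {k : ℕ} {m : G} (h : Mid t ht A c k m) :
    T2 K t (4 * k) (t ^ (2 * k) * m 0 1) (t ^ (2 * k) * m 1 1) := by
  have hz : ∀ b ∈ Subgroup.zpowers c, HasE K b := by
    intro b hb
    have hle : Subgroup.zpowers c ≤
        ({ carrier := {g | HasE K g}, mul_mem' := fun h1 h2 => HasE.mul h1 h2,
           one_mem' := HasE.one K, inv_mem' := fun h1 => HasE.inv h1 } : Subgroup G) := by
      rw [Subgroup.zpowers_le]; exact hc
    exact hle hb
  induction h with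
  | base b hb hcen =>
    have h1 : T1 K t 0 0 1 := ⟨0, 1, by simp, by simp, one_ne_zero, by simp, by simp⟩
    have h2 := stepQ h1 (hz b hb) (hc01 b hb hcen)
    rw [conjD01, conjD11]
    convert! h2 using 1 <;> ring
  | step b a m k hb hcen ha hac hm ih =>
    have h1 := stepA ih (hA a ha) (hA10 a ha hac)
    have h2 := stepQ h1 (hz b hb) (hc01 b hb hcen)
    have e1 : t ^ (2 * (k + 1)) * (D t ht * b * (D t ht)⁻¹ * (a * m)) 0 1 =
        t ^ 2 * b 0 0 * (a 0 0 * (t ^ (2 * k) * m 0 1) + a 0 1 * (t ^ (2 * k) * m 1 1)) +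
        t ^ 4 * b 0 1 * (a 1 0 * (t ^ (2 * k) * m 0 1) + a 1 1 * (t ^ (2 * k) * m 1 1)) := by
      rw [mul01 (D t ht * b * (D t ht)⁻¹), conjD00, conjD01, mul01, mul11]; ring
    have e2 : t ^ (2 * (k + 1)) * (D t ht * b * (D t ht)⁻¹ * (a * m)) 1 1 =
        b 1 0 * (a 0 0 * (t ^ (2 * k) * m 0 1) + a 0 1 * (t ^ (2 * k) * m 1 1)) +
        t ^ 2 * b 1 1 * (a 1 0 * (t ^ (2 * k) * m 0 1) + a 1 1 * (t ^ (2 * k) * m 1 1)) := by
      rw [mul11 (D t ht * b * (D t ht)⁻¹), conjD11, mul01, mul11, ← conjD10 t ht b]; ring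
    rw [e1, e2]
    exact h2

lemma Mid.not_HasE {t : ℝ} {ht : t ≠ 0} {A : Subgroup G} {c : G} {K : Subfield ℝ}
    (htr : Transcendental K t)
    (hA : ∀ a ∈ A, HasE K a) (hA10 : ∀ a ∈ A, ¬ Cen a → a 1 0 ≠ 0)
    (hc : HasE K c) (hc01 : ∀ b ∈ Subgroup.zpowers c, ¬ Cen b → b 0 1 ≠ 0)
    {k : ℕ} {m : G} (h : Mid t ht A c k m) : ¬ HasE K m := by
  intro hm
  obtain ⟨p, q, hp, hq, hpx, hqx⟩ := h.state hA hA10 hc hc01
  have hk := h.pos
  rw [transcendental_iff_injective] at htr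
  have h1 : aeval t p = aeval t (X ^ (2 * k) * C (⟨m 0 1, hm 0 1⟩ : K)) := by
    rw [hpx]
    simp only [map_mul, map_pow, aeval_X, aeval_C]
    rfl
  have h2 := htr h1
  rw [h2] at hp
  have h3 := natDegree_mul_le (p := X ^ (2 * k)) (q := C (⟨m 0 1, hm 0 1⟩ : K))
  rw [natDegree_C] at h3
  have h4 : (X ^ (2 * k) : K[X]).natDegree ≤ 2 * k := natDegree_X_pow_le _
  omega

/-- elements of the group generated by `A` and `D c D⁻¹`. -/
def Elt (t : ℝ) (ht : t ≠ 0) (A : Subgroup G) (c : G) (x : G) : Prop :=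
  x ∈ A ∨ ∃ k m a0 a1, Mid t ht A c k m ∧ a0 ∈ A ∧ a1 ∈ A ∧ x = a0 * m * a1

lemma Cen.comm {b : G} (h : Cen b) (x : G) : x * b = b * x := by
  rcases h with rfl | rfl <;> simp

lemma Cen.conj {b : G} (h : Cen b) (x : G) : x * b * x⁻¹ = b := by
  rw [h.comm]; simp [mul_assoc]

lemma Elt.mulB {t : ℝ} {ht : t ≠ 0} {A : Subgroup G} {c : G} (hneg : (-1 : G) ∈ A)
    {b : G} (hb : b ∈ Subgroup.zpowers c) {x : G} (hx : Elt t ht A c x) :
    Elt t ht A c (D t ht * b * (D t ht)⁻¹ * x) := by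
  have hcenA : ∀ {g : G}, Cen g → g ∈ A := by
    rintro g (rfl | rfl)
    · exact A.one_mem
    · exact hneg
  by_cases hcb : Cen b
  · rw [hcb.conj]
    rcases hx with hx | ⟨k, m, a0, a1, hm, ha0, ha1, rfl⟩
    · exact Or.inl (A.mul_mem (hcenA hcb) hx)
    · exact Or.inr ⟨k, m, b * a0, a1, hm, A.mul_mem (hcenA hcb) ha0, ha1, by simp [mul_assoc]⟩
  rcases hx with hx | ⟨k, m, a0, a1, hm, ha0, ha1, rfl⟩
  · exact Or.inr ⟨1, _, 1, x, Mid.base b hb hcb, A.one_mem, hx, by simp⟩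
  by_cases hca : Cen a0
  swap
  · exact Or.inr ⟨k + 1, _, 1, a1, Mid.step b a0 m k hb hcb ha0 hca hm, A.one_mem, ha1,
      by simp [mul_assoc]⟩
  -- merge
  cases hm with
  | base b1 hb1 hc1 =>
    have e : D t ht * b * (D t ht)⁻¹ * (a0 * (D t ht * b1 * (D t ht)⁻¹) * a1) =
        a0 * (D t ht * (b * b1) * (D t ht)⁻¹) * a1 := by
      have : D t ht * b * (D t ht)⁻¹ * a0 = a0 * (D t ht * b * (D t ht)⁻¹) := hca.comm _
      calc _ = (D t ht * b * (D t ht)⁻¹ * a0) * (D t ht * b1 * (D t ht)⁻¹) * a1 := by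
            simp only [mul_assoc]
        _ = a0 * (D t ht * b * (D t ht)⁻¹) * (D t ht * b1 * (D t ht)⁻¹) * a1 := by rw [this]
        _ = _ := by group
    rw [e]
    by_cases hcc : Cen (b * b1)
    · rw [hcc.conj]
      exact Or.inl (A.mul_mem (A.mul_mem ha0 (hcenA hcc)) ha1)
    · exact Or.inr ⟨1, _, a0, a1, Mid.base _ (Subgroup.mul_mem _ hb hb1) hcc, ha0, ha1, rfl⟩
  | step b1 a m' k' hb1 hc1 ha hac hm' =>
    have e : D t ht * b * (D t ht)⁻¹ * (a0 * (D t ht * b1 * (D t ht)⁻¹ * (a * m')) * a1) =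
        a0 * (D t ht * (b * b1) * (D t ht)⁻¹ * (a * m')) * a1 := by
      have : D t ht * b * (D t ht)⁻¹ * a0 = a0 * (D t ht * b * (D t ht)⁻¹) := hca.comm _
      calc _ = (D t ht * b * (D t ht)⁻¹ * a0) * (D t ht * b1 * (D t ht)⁻¹) * (a * m') * a1 := by
            simp only [mul_assoc]
        _ = a0 * (D t ht * b * (D t ht)⁻¹) * (D t ht * b1 * (D t ht)⁻¹) * (a * m') * a1 := by
            rw [this]
        _ = _ := by group
    rw [e]
    by_cases hcc : Cen (b * b1)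
    · rw [hcc.conj]
      exact Or.inr ⟨k', m', a0 * (b * b1) * a, a1, hm',
        A.mul_mem (A.mul_mem ha0 (hcenA hcc)) ha, ha1, by simp only [mul_assoc]⟩
    · exact Or.inr ⟨k' + 1, _, a0, a1,
        Mid.step _ a m' k' (Subgroup.mul_mem _ hb hb1) hcc ha hac hm', ha0, ha1, rfl⟩

theorem core (K : Subfield ℝ) (t : ℝ) (ht : t ≠ 0) (htr : Transcendental K t) (A : Subgroup G)
    (hA : ∀ a ∈ A, HasE K a) (hneg : (-1 : G) ∈ A) (hA10 : ∀ a ∈ A, ¬ Cen a → a 1 0 ≠ 0)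
    (c : G) (hc : HasE K c) (hc01 : ∀ b ∈ Subgroup.zpowers c, ¬ Cen b → b 0 1 ≠ 0)
    (z : G) (hz : HasE K z) (hzA : z ∉ A) :
    z ∉ Subgroup.closure ((A : Set G) ∪ {D t ht * c * (D t ht)⁻¹}) := by
  intro hzc
  have key : ∀ x ∈ Subgroup.closure ((A : Set G) ∪ {D t ht * c * (D t ht)⁻¹}),
      Elt t ht A c x := by
    intro x hx
    induction hx using Subgroup.closure_induction_left with
    | one => exact Or.inl A.one_mem
    | mul_left x hx y hy ih =>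
      rcases hx with hx | hx
      · rcases ih with ih | ⟨k, m, a0, a1, hm, ha0, ha1, rfl⟩
        · exact Or.inl (A.mul_mem hx ih)
        · exact Or.inr ⟨k, m, x * a0, a1, hm, A.mul_mem hx ha0, ha1, by simp only [mul_assoc]⟩
      · rw [Set.mem_singleton_iff] at hx
        rw [hx]
        exact ih.mulB hneg (Subgroup.mem_zpowers c)
    | inv_mul_cancel x hx y hy ih =>
      rcases hx with hx | hx
      · have hx' := A.inv_mem hx
        rcases ih with ih | ⟨k, m, a0, a1, hm, ha0, ha1, rfl⟩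
        · exact Or.inl (A.mul_mem hx' ih)
        · exact Or.inr ⟨k, m, x⁻¹ * a0, a1, hm, A.mul_mem hx' ha0, ha1, by simp only [mul_assoc]⟩
      · rw [Set.mem_singleton_iff] at hx
        rw [hx]
        have e : (D t ht * c * (D t ht)⁻¹)⁻¹ = D t ht * c⁻¹ * (D t ht)⁻¹ := by group
        rw [e]
        exact ih.mulB hneg (Subgroup.inv_mem _ (Subgroup.mem_zpowers c))
  rcases key z hzc with h | ⟨k, m, a0, a1, hm, ha0, ha1, h⟩
  · exact hzA h
  · apply hm.not_HasE htr hA hA10 hc hc01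
    have e : m = a0⁻¹ * z * a1⁻¹ := by rw [h]; group
    rw [e]
    exact ((hA a0 ha0).inv.mul hz).mul (hA a1 ha1).inv

end Pool.Agent.LeadR3.SL2IG
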