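import Mathlib
import Pool.Agent.LeadR3.SL2IG

set_option autoImplicit false
set_option linter.unusedSectionVars false
set_option linter.unusedSimpArgs false

namespace Pool.Agent.LeadR3.SL2IG

open Polynomial Cardinal
open scoped Cardinal

lemma exists_trans (K : Subfield ℝ) (hK : #K < 𝔠) : ∃ r : ℝ, Transcendental K r := by
  by_contra hno
  push Not at hno
  have h1 : ∀ x : ℝ, IsAlgebraic K x := by
    intro x
    by_contra hx
    exact hno x hx
  have h2 : #{ x : ℝ // IsAlgebraic K x } ≤ max #K ℵ₀ := Algebraic.cardinalMk_le_max K ℝ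
  have h3 : #{ x : ℝ // IsAlgebraic K x } = #ℝ :=
    Cardinal.mk_congr (Equiv.subtypeUnivEquiv h1)
  rw [h3, Cardinal.mk_real] at h2
  exact absurd (lt_of_le_of_lt h2 (max_lt hK Cardinal.aleph0_lt_continuum)) (lt_irrefl _)

lemma quad {K : Subfield ℝ} {r : ℝ} (hr : Transcendental K r) {α β γ : ℝ} (hα : α ∈ K)
    (hβ : β ∈ K) (hγ : γ ∈ K) (h : α * r ^ 2 + β * r + γ = 0) : α = 0 ∧ β = 0 ∧ γ = 0 := by
  rw [transcendental_iff] at hr
  have h1 := hr (C (⟨α, hα⟩ : K) * X ^ 2 + C (⟨β, hβ⟩ : K) * X + C (⟨γ, hγ⟩ : K)) (by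
    simp only [map_add, map_mul, map_pow, aeval_X, aeval_C]
    exact h)
  refine ⟨?_, ?_, ?_⟩
  · have := congrArg (fun p => coeff p 2) h1
    simp [coeff_X, coeff_C] at this
    exact congrArg Subtype.val this
  · have := congrArg (fun p => coeff p 1) h1
    simp [coeff_X, coeff_C] at this
    exact congrArg Subtype.val this
  · have := congrArg (fun p => coeff p 0) h1
    simp [coeff_X, coeff_C] at this
    exact congrArg Subtype.val this

lemma scalar_cen (g : G) (h01 : g 0 1 = 0) (h10 : g 1 0 = 0) (h : g 0 0 = g 1 1) : Cen g := by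
  have hd := det_eq g
  rw [h01, h10, h] at hd
  have h1 : g 1 1 * g 1 1 = 1 := by linarith
  rcases mul_self_eq_one_iff.mp h1 with h2 | h2
  · left
    ext i j
    fin_cases i <;> fin_cases j
    · simpa [h2] using h
    · simpa using h01
    · simpa using h10
    · simpa using h2
  · right
    ext i j
    fin_cases i <;> fin_cases j
    · simpa [h2] using h
    · simpa using h01
    · simpa using h10
    · simpa using h2

/-- lower unipotent -/
noncomputable def Lo (r : ℝ) : G := ⟨!![1, 0; r, 1], by rw [Matrix.det_fin_two_of]; ring⟩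
/-- upper unipotent -/
noncomputable def Up (r : ℝ) : G := ⟨!![1, r; 0, 1], by rw [Matrix.det_fin_two_of]; ring⟩

lemma conjLo (r : ℝ) (a : G) : ((Lo r)⁻¹ * a * Lo r) 1 0 =
    (-a 0 1) * r ^ 2 + (a 1 1 - a 0 0) * r + a 1 0 := by
  have e1 : Lo r 0 0 = 1 := by simp [Lo]
  have e2 : Lo r 0 1 = 0 := by simp [Lo]
  have e3 : Lo r 1 0 = r := by simp [Lo]
  have e4 : Lo r 1 1 = 1 := by simp [Lo]
  rw [mul10, mul10, mul11, inv10, inv11, e1, e3]; ring

lemma conjUp (r : ℝ) (a : G) : (Up r * a * (Up r)⁻¹) 0 1 =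
    (-a 1 0) * r ^ 2 + (a 1 1 - a 0 0) * r + a 0 1 := by
  have e1 : Up r 0 0 = 1 := by simp [Up]
  have e2 : Up r 0 1 = r := by simp [Up]
  have e3 : Up r 1 0 = 0 := by simp [Up]
  have e4 : Up r 1 1 = 1 := by simp [Up]
  rw [mul01, mul00, mul01, inv01, inv11, e1, e2]; ring

lemma Cen.conj' {b : G} (h : Cen b) (x : G) : Cen (x * b * x⁻¹) := by
  rw [h.conj]; exact h

theorem step (K : Subfield ℝ) (hK : #K < 𝔠) (A : Subgroup G)
    (hA : ∀ a ∈ A, HasE K a) (hneg : (-1 : G) ∈ A) (c : G) (hc : HasE K c)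
    (z : G) (hz : HasE K z) (hzA : z ∉ A) :
    ∃ g : G, z ∉ Subgroup.closure ((A : Set G) ∪ {g * c * g⁻¹}) := by
  obtain ⟨r, hr⟩ := exists_trans K hK
  set K2 : Subfield ℝ := Subfield.closure ((K : Set ℝ) ∪ {r}) with hK2
  have hKK2 : K ≤ K2 := fun x hx => Subfield.subset_closure (Or.inl hx)
  have hrK2 : r ∈ K2 := Subfield.subset_closure (Or.inr rfl)
  have hK2c : #K2 < 𝔠 := by
    refine lt_of_le_of_lt (Subfield.cardinalMk_closure_le_max _) (max_lt ?_ aleph0_lt_continuum)
    refine lt_of_le_of_lt (Cardinal.mk_union_le _ _) ?_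
    exact Cardinal.add_lt_of_lt aleph0_le_continuum hK (by
      rw [Cardinal.mk_singleton]; exact one_lt_aleph0.trans aleph0_lt_continuum)
  obtain ⟨t, htr⟩ := exists_trans K2 hK2c
  have ht : t ≠ 0 := by
    rintro rfl
    exact htr (isAlgebraic_zero)
  have hLo : HasE K2 (Lo r) := by
    intro i j
    fin_cases i <;> fin_cases j <;> simp [Lo, K2.one_mem, K2.zero_mem, hrK2]
  have hUp : HasE K2 (Up r) := by
    intro i j
    fin_cases i <;> fin_cases j <;> simp [Up, K2.one_mem, K2.zero_mem, hrK2]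
  set k : G := Lo r with hk
  set k' : G := Up r with hk'
  refine ⟨k * D t ht * k', ?_⟩
  intro hmem
  set φ : G →* G := (MulAut.conj k⁻¹).toMonoidHom with hφ
  have hφa : ∀ x, φ x = k⁻¹ * x * k := by
    intro x; simp [hφ]
  set A' : Subgroup G := A.map φ with hA'
  have hAe : ∀ a ∈ A', ∃ a0 ∈ A, a = k⁻¹ * a0 * k := by
    rintro a ⟨a0, ha0, rfl⟩
    exact ⟨a0, ha0, hφa a0⟩
  have hcore := core K2 t ht htr A'
    (by
      intro a ha
      obtain ⟨a0, ha0, rfl⟩ := hAe a ha
      exact (hLo.inv.mul ((hA a0 ha0).mono hKK2)).mul hLo)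
    ⟨-1, hneg, by rw [hφa]; simp⟩
    (by
      intro a ha hcen
      obtain ⟨a0, ha0, rfl⟩ := hAe a ha
      intro h0
      rw [hk, conjLo] at h0
      obtain ⟨h1, h2, h3⟩ := quad hr (K.neg_mem (hA a0 ha0 0 1))
        (K.sub_mem (hA a0 ha0 1 1) (hA a0 ha0 0 0)) (hA a0 ha0 1 0) h0
      apply hcen
      have hc0 : Cen a0 := scalar_cen a0 (by linarith) h3 (by linarith)
      have := hc0.conj' k⁻¹
      simpa using this)
    (k' * c * k'⁻¹)
    ((hUp.mul (hc.mono hKK2)).mul hUp.inv)
    (by
      intro b hb hcen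
      rw [Subgroup.mem_zpowers_iff] at hb
      obtain ⟨n, rfl⟩ := hb
      rw [conj_zpow] at hcen ⊢
      have hcn : HasE K (c ^ n) := by
        have hle : Subgroup.zpowers c ≤
            ({ carrier := {g | HasE K g}, mul_mem' := fun h1 h2 => HasE.mul h1 h2,
               one_mem' := HasE.one K, inv_mem' := fun h1 => HasE.inv h1 } : Subgroup G) := by
          rw [Subgroup.zpowers_le]; exact hc
        exact hle (Subgroup.zpow_mem_zpowers c n)
      intro h0
      rw [hk', conjUp] at h0
      obtain ⟨h1, h2, h3⟩ := quad hr (K.neg_mem (hcn 1 0))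
        (K.sub_mem (hcn 1 1) (hcn 0 0)) (hcn 0 1) h0
      apply hcen
      have hc0 : Cen (c ^ n) := scalar_cen _ h3 (by linarith) (by linarith)
      exact hc0.conj' k')
    (k⁻¹ * z * k)
    ((hLo.inv.mul (hz.mono hKK2)).mul hLo)
    (by
      intro h
      obtain ⟨a0, ha0, he⟩ := hAe _ h
      apply hzA
      have : z = a0 := by
        have := congrArg (fun x => k * x * k⁻¹) he
        calc z = k * (k⁻¹ * z * k) * k⁻¹ := by group
          _ = k * (k⁻¹ * a0 * k) * k⁻¹ := this
          _ = a0 := by group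
      rw [this]; exact ha0)
  apply hcore
  have h1 : φ z ∈ (Subgroup.closure ((A : Set G) ∪ {k * D t ht * k' * c * (k * D t ht * k')⁻¹})).map φ :=
    ⟨z, hmem, rfl⟩
  rw [MonoidHom.map_closure, Set.image_union, Set.image_singleton, hφa, hφa] at h1
  have e : k⁻¹ * (k * D t ht * k' * c * (k * D t ht * k')⁻¹) * k =
      D t ht * (k' * c * k'⁻¹) * (D t ht)⁻¹ := by group
  rw [e] at h1
  exact h1

/-! ### transfinite recursion -/

section Rec

variable {ι : Type} [LinearOrder ι] [WellFoundedLT ι]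

/-- the generators chosen before `i`. -/
def gens (f x : ι → G) (Q : ι → Prop) : Set G := {-1} ∪ {y | ∃ j, Q j ∧ y = x j * f j * (x j)⁻¹}

def pregens (f : ι → G) (i : ι) (prev : (j : ι) → j < i → G) : Set G :=
  {-1} ∪ {y | ∃ (j : ι) (hj : j < i), y = prev j hj * f j * (prev j hj)⁻¹}

open Classical in
noncomputable def pick (f : ι → G) (z : G) (i : ι) (prev : (j : ι) → j < i → G) : G :=
  if h : ∃ g : G, z ∉ Subgroup.closure
      ((Subgroup.closure (pregens f i prev) : Set G) ∪ {g * f i * g⁻¹}) then h.choose else 1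

noncomputable def xs (f : ι → G) (z : G) : ι → G :=
  WellFounded.fix (C := fun _ => G) (wellFounded_lt (α := ι)) (fun i prev => pick f z i prev)

lemma xs_eq (f : ι → G) (z : G) (i : ι) : xs f z i = pick f z i (fun j _ => xs f z j) := by
  unfold xs
  rw [WellFounded.fix_eq]

lemma xs_spec (f : ι → G) (z : G) (i : ι)
    (h : ∃ g : G, z ∉ Subgroup.closure
      ((Subgroup.closure (gens f (xs f z) (fun j => j < i)) : Set G) ∪ {g * f i * g⁻¹})) :
    z ∉ Subgroup.closure ((Subgroup.closure (gens f (xs f z) (fun j => j < i)) : Set G) ∪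
      {xs f z i * f i * (xs f z i)⁻¹}) := by
  have hp : pregens f i (fun j _ => xs f z j) = gens f (xs f z) (fun j => j < i) := by
    unfold pregens gens
    ext y
    simp
  rw [xs_eq]
  unfold pick
  rw [hp, dif_pos h]
  exact h.choose_spec

lemma closure_le_step (f x : ι → G) (i : ι) :
    Subgroup.closure (gens f x (fun j => j ≤ i)) ≤
    Subgroup.closure ((Subgroup.closure (gens f x (fun j => j < i)) : Set G) ∪
      {x i * f i * (x i)⁻¹}) := by
  rw [Subgroup.closure_le]
  rintro y (hy | ⟨j, hj, rfl⟩)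
  · exact Subgroup.subset_closure (Or.inl (Subgroup.subset_closure (Or.inl hy)))
  · rcases lt_or_eq_of_le hj with h | rfl
    · exact Subgroup.subset_closure (Or.inl (Subgroup.subset_closure (Or.inr ⟨j, h, rfl⟩)))
    · exact Subgroup.subset_closure (Or.inr rfl)

/-- finite support -/
lemma finite_support (f x : ι → G) (z : G) (hz : ¬ Cen z) (Q : ι → Prop)
    (hQ : ∀ j, Q j → z ∉ Subgroup.closure (gens f x (fun l => l ≤ j))) :
    z ∉ Subgroup.closure (gens f x Q) := by
  intro hmem
  have key : ∀ y ∈ Subgroup.closure (gens f x Q),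
      Cen y ∨ ∃ j, Q j ∧ y ∈ Subgroup.closure (gens f x (fun l => l ≤ j)) := by
    intro y hy
    have hneg : ∀ j, (-1 : G) ∈ Subgroup.closure (gens f x (fun l => l ≤ j)) :=
      fun j => Subgroup.subset_closure (Or.inl rfl)
    have hcen : ∀ j (g : G), Cen g → g ∈ Subgroup.closure (gens f x (fun l => l ≤ j)) := by
      rintro j g (rfl | rfl)
      · exact Subgroup.one_mem _
      · exact hneg j
    have hmono : ∀ {i j : ι}, i ≤ j → Subgroup.closure (gens f x (fun l => l ≤ i)) ≤
        Subgroup.closure (gens f x (fun l => l ≤ j)) := by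
      intro i j hij
      apply Subgroup.closure_mono
      rintro y (hy | ⟨l, hl, rfl⟩)
      · exact Or.inl hy
      · exact Or.inr ⟨l, hl.trans hij, rfl⟩
    induction hy using Subgroup.closure_induction with
    | mem y hy =>
      rcases hy with hy | ⟨j, hj, rfl⟩
      · rw [Set.mem_singleton_iff] at hy
        exact Or.inl (Or.inr hy)
      · exact Or.inr ⟨j, hj, Subgroup.subset_closure (Or.inr ⟨j, le_rfl, rfl⟩)⟩
    | one => exact Or.inl (Or.inl rfl)
    | mul a b _ _ iha ihb =>
      rcases iha with ha | ⟨i, hi, ha⟩ <;> rcases ihb with hb | ⟨j, hj, hb⟩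
      · left
        rcases ha with rfl | rfl <;> rcases hb with rfl | rfl <;> simp [Cen]
      · exact Or.inr ⟨j, hj, Subgroup.mul_mem _ (hcen j a ha) hb⟩
      · exact Or.inr ⟨i, hi, Subgroup.mul_mem _ ha (hcen i b hb)⟩
      · rcases le_total i j with h | h
        · exact Or.inr ⟨j, hj, Subgroup.mul_mem _ (hmono h ha) hb⟩
        · exact Or.inr ⟨i, hi, Subgroup.mul_mem _ ha (hmono h hb)⟩
    | inv a _ iha =>
      rcases iha with ha | ⟨i, hi, ha⟩
      · left
        rcases ha with rfl | rfl <;> simp [Cen]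
      · exact Or.inr ⟨i, hi, Subgroup.inv_mem _ ha⟩
  rcases key z hmem with h | ⟨j, hj, h⟩
  · exact hz h
  · exact hQ j hj h

lemma card_entries {κ : Type} (hκ : #κ < 𝔠) (F : κ → G) :
    #(Set.range (fun p : κ × Fin 2 × Fin 2 => F p.1 p.2.1 p.2.2)) < 𝔠 := by
  refine lt_of_le_of_lt Cardinal.mk_range_le ?_
  rw [Cardinal.mk_prod, Cardinal.lift_id, Cardinal.lift_id]
  refine Cardinal.mul_lt_of_lt aleph0_le_continuum hκ ?_
  exact (Cardinal.lt_aleph0_of_finite _).trans aleph0_lt_continuum

theorem main_rec (hι : ∀ i : ι, #(Set.Iio i) < 𝔠) (f : ι → G) (z : G) (hz : ¬ Cen z) :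
    ∀ i : ι, z ∉ Subgroup.closure (gens f (xs f z) (fun j => j < i)) := by
  intro i
  induction i using WellFoundedLT.induction with
  | _ i ih =>
  apply finite_support f (xs f z) z hz
  intro j hj hmem
  have hzj := ih j hj
  -- the field
  set F1 : (Set.Iio j) → G := fun l => xs f z l.1 * f l.1 * (xs f z l.1)⁻¹ with hF1
  set F2 : Bool → G := fun b => if b then f j else z with hF2
  set S1 := Set.range (fun p : (Set.Iio j) × Fin 2 × Fin 2 => F1 p.1 p.2.1 p.2.2) with hS1
  set S2 := Set.range (fun p : Bool × Fin 2 × Fin 2 => F2 p.1 p.2.1 p.2.2) with hS2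
  set K : Subfield ℝ := Subfield.closure (S1 ∪ S2) with hK
  have hKc : #K < 𝔠 := by
    refine lt_of_le_of_lt (Subfield.cardinalMk_closure_le_max _) (max_lt ?_ aleph0_lt_continuum)
    refine lt_of_le_of_lt (Cardinal.mk_union_le _ _) ?_
    exact Cardinal.add_lt_of_lt aleph0_le_continuum (card_entries (hι j) F1)
      (card_entries ((Cardinal.lt_aleph0_of_finite _).trans aleph0_lt_continuum) F2)
  have hfj : HasE K (f j) := by
    intro a b
    exact Subfield.subset_closure (Or.inr ⟨(true, a, b), by simp [hF2]⟩)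
  have hzK : HasE K z := by
    intro a b
    exact Subfield.subset_closure (Or.inr ⟨(false, a, b), by simp [hF2]⟩)
  have hA : ∀ a ∈ Subgroup.closure (gens f (xs f z) (fun l => l < j)), HasE K a := by
    intro a ha
    induction ha using Subgroup.closure_induction with
    | mem y hy =>
      rcases hy with hy | ⟨l, hl, rfl⟩
      · rw [Set.mem_singleton_iff] at hy
        rw [hy]; exact (HasE.one K).neg
      · intro a b
        exact Subfield.subset_closure (Or.inl ⟨(⟨l, hl⟩, a, b), rfl⟩)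
    | one => exact HasE.one K
    | mul a b _ _ iha ihb => exact iha.mul ihb
    | inv a _ iha => exact iha.inv
  have hex := step K hKc _ hA (Subgroup.subset_closure (Or.inl rfl)) (f j) hfj z hzK hzj
  exact xs_spec f z j hex (closure_le_step f (xs f z) j hmem)

end Rec

theorem notIG : ∃ H : Subgroup G, (∀ g : G, ∃ x : G, x * g * x⁻¹ ∈ H) ∧ H ≠ ⊤ := by
  let ι : Type := (𝔠 : Cardinal.{0}).ord.ToType
  have hcard : #ι = 𝔠 := Cardinal.mk_ord_toType _
  have hιi : ∀ i : ι, #(Set.Iio i) < 𝔠 := by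
    intro i
    have := Cardinal.mk_Iio_lt i (by rw [hcard]; simp [ι])
    rwa [hcard] at this
  have hG : #G ≤ 𝔠 := by
    have h1 : #G ≤ #(Fin 2 → Fin 2 → ℝ) := by
      refine Cardinal.mk_le_of_injective (f := fun (g : G) => fun i j => g i j) ?_
      intro g h hgh
      ext i j
      exact congrFun (congrFun hgh i) j
    have h2 : #(Fin 2 → Fin 2 → ℝ) = 𝔠 := by
      have h3 : (𝔠 : Cardinal.{0}) ^ (2 : ℕ) = 𝔠 := Cardinal.power_nat_eq aleph0_le_continuum (by norm_num)
      simp only [Cardinal.mk_pi, Cardinal.prod_const, Cardinal.lift_id, Cardinal.mk_real, Cardinal.mk_fin]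
      have h4 : (𝔠 : Cardinal.{0}) ^ (2 : Cardinal) = 𝔠 := by
        have := Cardinal.power_natCast (𝔠 : Cardinal.{0}) 2
        rw [h3] at this
        exact_mod_cast this
      simp [h4]
    rwa [h2] at h1
  rw [← hcard, Cardinal.le_def] at hG
  obtain ⟨e⟩ := hG
  have hsurj : Function.Surjective (Function.invFun e) := Function.invFun_surjective e.injective
  set f : ι → G := Function.invFun e with hf
  set z : G := Up 1 with hz
  have hzc : ¬ Cen z := by
    rintro (h | h)
    · have := congrArg (fun g : G => g 0 1) h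
      simp [hz, Up] at this
    · have := congrArg (fun g : G => g 0 1) h
      simp [hz, Up] at this
  refine ⟨Subgroup.closure (gens f (xs f z) (fun _ => True)), ?_, ?_⟩
  · intro g
    obtain ⟨i, rfl⟩ := hsurj g
    exact ⟨xs f z i, Subgroup.subset_closure (Or.inr ⟨i, trivial, rfl⟩)⟩
  · intro htop
    have hmem : z ∈ Subgroup.closure (gens f (xs f z) (fun _ => True)) := by
      rw [htop]; trivial
    refine finite_support f (xs f z) z hzc (fun _ => True) ?_ hmem
    intro j _ hj
    -- `{l ≤ j}` : use `main_rec` for the field step again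
    by_cases hmax : ∃ k, j < k
    · obtain ⟨k, hk⟩ := hmax
      apply main_rec hιi f z hzc k
      refine Subgroup.closure_mono ?_ hj
      rintro y (hy | ⟨l, hl, rfl⟩)
      · exact Or.inl hy
      · exact Or.inr ⟨l, lt_of_le_of_lt hl hk, rfl⟩
    · push Not at hmax
      have h1 : #ι ≤ #(Set.Iio j) + 1 := by
        have h2 : (Set.univ : Set ι) = Set.Iio j ∪ {j} := by
          ext l
          simp only [Set.mem_univ, Set.mem_union, Set.mem_Iio, Set.mem_singleton_iff, true_iff]
          exact lt_or_eq_of_le (hmax l)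
        rw [← Cardinal.mk_univ, h2]
        refine (Cardinal.mk_union_le _ _).trans ?_
        rw [Cardinal.mk_singleton]
      rw [hcard] at h1
      have h3 : #(Set.Iio j) + 1 < 𝔠 := Cardinal.add_lt_of_lt aleph0_le_continuum (hιi j)
        (one_lt_aleph0.trans aleph0_lt_continuum)
      exact absurd h1 (not_le.mpr h3)

end Pool.Agent.LeadR3.SL2IG
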